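import Mathlib

set_option autoImplicit false

/-!
# Actions by order automorphisms and the relations of threefold covers of pretzel knots

A group `H` acts on a linear order `Ω` by order automorphisms.  The elements `x i, v i, w i`
(`i` modulo 3) satisfy `x i * v i * w i = 1`; put `A i = x i ^ (a+1) * v i ^ (q+1)` and
`D i = w i ^ b * v i ^ q`; the relations are `A (i+1) = A i * w i` and
`D (i+1) = D i * (x i)⁻¹`.  With `C i = D i * (A i)⁻¹ = w i ^ (b+1) * (x i)⁻¹ ^ a`.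
-/

namespace Pool.Agent.Helper52.L3

/-- The action is by strictly monotone maps. -/
def Mono (H Ω : Type*) [Group H] [LinearOrder Ω] [MulAction H Ω] : Prop :=
  ∀ (g : H) (y z : Ω), y < z → g • y < g • z

section act
variable {H : Type*} [Group H] {Ω : Type*} [LinearOrder Ω] [MulAction H Ω]

theorem Mono.dual (m : Mono H Ω) : Mono H Ωᵒᵈ := fun g y z h => m g z y h

theorem Mono.lt_iff (m : Mono H Ω) (g : H) {y z : Ω} : g • y < g • z ↔ y < z := by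
  refine ⟨fun h => ?_, fun h => m g y z h⟩
  have := m g⁻¹ _ _ h
  rwa [inv_smul_smul, inv_smul_smul] at this

theorem Mono.le_iff (m : Mono H Ω) (g : H) {y z : Ω} : g • y ≤ g • z ↔ y ≤ z := by
  rw [← not_lt, ← not_lt, m.lt_iff]

theorem Mono.lt_inv_iff (m : Mono H Ω) (g : H) {y z : Ω} : y < g⁻¹ • z ↔ g • y < z := by
  rw [← m.lt_iff g, smul_inv_smul]

theorem Mono.inv_lt_iff (m : Mono H Ω) (g : H) {y z : Ω} : g⁻¹ • y < z ↔ y < g • z := by
  rw [← m.lt_iff g, smul_inv_smul]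

theorem Mono.le_inv_iff (m : Mono H Ω) (g : H) {y z : Ω} : y ≤ g⁻¹ • z ↔ g • y ≤ z := by
  rw [← m.le_iff g, smul_inv_smul]

theorem Mono.inv_le_iff (m : Mono H Ω) (g : H) {y z : Ω} : g⁻¹ • y ≤ z ↔ y ≤ g • z := by
  rw [← m.le_iff g, smul_inv_smul]

theorem Mono.pow_up (m : Mono H Ω) {g : H} {y : Ω} (h : y ≤ g • y) (n : ℕ) : y ≤ g ^ n • y := by
  induction n with
  | zero => simp
  | succ n ih =>
    rw [pow_succ', mul_smul]
    exact h.trans ((m.le_iff g).mpr ih)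

theorem Mono.pow_down (m : Mono H Ω) {g : H} {y : Ω} (h : g • y ≤ y) (n : ℕ) : g ^ n • y ≤ y :=
  Mono.pow_up (Ω := Ωᵒᵈ) m.dual h n

theorem Mono.pow_mono_up (m : Mono H Ω) {g : H} {y : Ω} (h : y ≤ g • y) {k n : ℕ} (hk : k ≤ n) :
    g ^ k • y ≤ g ^ n • y := by
  obtain ⟨l, rfl⟩ := Nat.exists_eq_add_of_le hk
  rw [pow_add, mul_smul]
  exact (m.le_iff _).mpr (m.pow_up h l)

theorem Mono.pow_mono_down (m : Mono H Ω) {g : H} {y : Ω} (h : g • y ≤ y) {k n : ℕ}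
    (hk : k ≤ n) : g ^ n • y ≤ g ^ k • y :=
  Mono.pow_mono_up (Ω := Ωᵒᵈ) m.dual h hk

theorem Mono.pow_up_lt (m : Mono H Ω) {g : H} {y : Ω} (h : y < g • y) {n : ℕ} (hn : 1 ≤ n) :
    y < g ^ n • y := by
  have := m.pow_mono_up h.le hn
  rw [pow_one] at this
  exact lt_of_lt_of_le h this

theorem Mono.pow_down_lt (m : Mono H Ω) {g : H} {y : Ω} (h : g • y < y) {n : ℕ} (hn : 1 ≤ n) :
    g ^ n • y < y :=
  Mono.pow_up_lt (Ω := Ωᵒᵈ) m.dual h hn

/-- If `w ^ c` moves `p` beyond `y` and `w` moves `y` up then `w` moves up all points of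
`[p, y]`. -/
theorem Mono.w_up (m : Mono H Ω) {w : H} {p y : Ω} {c : ℕ} (hp : y ≤ w ^ c • p)
    (hy : y < w • y) {z : Ω} (h1 : p ≤ z) (h2 : z ≤ y) : z < w • z := by
  by_contra hcon
  rw [not_lt] at hcon
  have h3 : w ^ c • z ≤ z := m.pow_down hcon c
  have h4 : y ≤ z := (hp.trans ((m.le_iff _).mpr h1)).trans h3
  have h5 : z = y := le_antisymm h2 h4
  rw [h5] at hcon
  exact absurd hy (not_lt.mpr hcon)

section level
variable {x v w : H}

theorem v_smul (h : x * v * w = 1) (z : Ω) : v • z = x⁻¹ • w⁻¹ • z := by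
  rw [smul_smul]
  congr 1
  have : x * v = w⁻¹ := eq_inv_of_mul_eq_one_left h
  rw [← this]; group

/-- `w` up at `(x⁻¹) ^ k • y` for `k ≤ n`. -/
theorem Mono.vk_lt (m : Mono H Ω) (h : x * v * w = 1) {y : Ω} {n : ℕ}
    (hw : ∀ k ≤ n, x⁻¹ ^ k • y < w • x⁻¹ ^ k • y) :
    ∀ k ≤ n, v ^ (k + 1) • y < x⁻¹ ^ (k + 1) • y := by
  intro k
  induction k with
  | zero =>
    intro _
    have h1 := hw 0 (Nat.zero_le _)
    rw [pow_zero, one_smul] at h1
    rw [zero_add, pow_one, pow_one, v_smul h]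
    exact (m.lt_iff _).mpr ((m.inv_lt_iff w).mpr h1)
  | succ k ih =>
    intro hk
    have h1 := ih (by omega)
    have h2 := hw (k + 1) hk
    rw [pow_succ' v, mul_smul]
    have h3 : v • v ^ (k + 1) • y < v • x⁻¹ ^ (k + 1) • y := (m.lt_iff _).mpr h1
    refine h3.trans ?_
    rw [v_smul h, pow_succ' x⁻¹ (k + 1), mul_smul]
    exact (m.lt_iff _).mpr ((m.inv_lt_iff w).mpr h2)

theorem Mono.xinv_down (m : Mono H Ω) {y : Ω} (hx : y ≤ x • y) : x⁻¹ • y ≤ y :=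
  (m.inv_le_iff x).mpr hx

theorem Mono.xinv_down_lt (m : Mono H Ω) {y : Ω} (hx : y < x • y) : x⁻¹ • y < y :=
  (m.inv_lt_iff x).mpr hx

theorem Mono.xinv_up (m : Mono H Ω) {y : Ω} (hx : x • y ≤ y) : y ≤ x⁻¹ • y :=
  (m.le_inv_iff x).mpr hx

theorem Mono.xinv_up_lt (m : Mono H Ω) {y : Ω} (hx : x • y < y) : y < x⁻¹ • y :=
  (m.lt_inv_iff x).mpr hx

theorem inv_fix {y : Ω} (hx : x⁻¹ • y = y) : x • y = y := by
  have := congrArg (fun z => x • z) hx
  simp only [smul_inv_smul] at this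
  exact this.symm

theorem fix_inv {y : Ω} (hx : x • y = y) : x⁻¹ • y = y := by
  have := congrArg (fun z => x⁻¹ • z) hx
  simp only [inv_smul_smul] at this
  exact this.symm

theorem pow_fix {y : Ω} (hx : x • y = y) (n : ℕ) : x ^ n • y = y := by
  induction n with
  | zero => simp
  | succ n ih => rw [pow_succ, mul_smul, hx, ih]

theorem v_fix (h : x * v * w = 1) {y : Ω} (hx : x • y = y) (hw : w • y = y) : v • y = y := by
  rw [v_smul h, fix_inv hw, fix_inv hx]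

/-- the case in which `w` does not move `y` up -/
theorem Mono.eqs (m : Mono H Ω) (h : x * v * w = 1) {y : Ω} {c d : ℕ} (hc : 1 ≤ c) (hd : 1 ≤ d)
    (hC : y ≤ w ^ c • x⁻¹ ^ d • y) (hx : y ≤ x • y) (hw : w • y ≤ y) :
    x • y = y ∧ v • y = y ∧ w • y = y := by
  have h1 : x⁻¹ ^ d • y ≤ x⁻¹ • y := by
    have := m.pow_mono_down (m.xinv_down hx) hd
    rwa [pow_one] at this
  have h2 : x⁻¹ • y ≤ y := m.xinv_down hx
  have h3 : w ^ c • y ≤ w • y := by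
    have := m.pow_mono_down hw hc
    rwa [pow_one] at this
  have h4 : w ^ c • x⁻¹ ^ d • y ≤ w ^ c • x⁻¹ • y := (m.le_iff _).mpr h1
  have h5 : w ^ c • x⁻¹ • y ≤ w ^ c • y := (m.le_iff _).mpr h2
  have h6 : y ≤ w • y := ((hC.trans h4).trans h5).trans h3
  have e1 : w • y = y := le_antisymm hw h6
  have h7 : w ^ c • y ≤ w ^ c • x⁻¹ • y := (h3.trans hw).trans (hC.trans h4)
  have h8 : y ≤ x⁻¹ • y := (m.le_iff _).mp h7
  have e2 : x⁻¹ • y = y := le_antisymm h2 h8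
  have e3 : x • y = y := inv_fix e2
  exact ⟨e3, v_fix h e3 e1, e1⟩

/-- `A y ≥ y`, `C y ≥ y`, `x y ≥ y`: everything is fixed. -/
theorem Mono.L1 (m : Mono H Ω) (h : x * v * w = 1) {y : Ω} {a b q : ℕ} (ha : 1 ≤ a) (hq : a ≤ q)
    (hA : y ≤ (x ^ (a + 1) * v ^ (q + 1)) • y) (hC : y ≤ (w ^ (b + 1) * x⁻¹ ^ a) • y)
    (hx : y ≤ x • y) : x • y = y ∧ v • y = y ∧ w • y = y := by
  rw [mul_smul] at hA hC
  rcases le_or_gt (w • y) y with hw | hw
  · exact m.eqs h (by omega) ha hC hx hw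
  · exfalso
    have hs := m.xinv_down hx
    have h1 : ∀ k ≤ a, x⁻¹ ^ k • y < w • x⁻¹ ^ k • y := by
      intro k hk
      exact m.w_up hC hw (m.pow_mono_down hs hk) (m.pow_down hs k)
    have h2 := m.vk_lt h h1 a le_rfl
    have h3 : v • y ≤ y := by
      have := m.vk_lt h h1 0 (Nat.zero_le _)
      rw [zero_add, pow_one, pow_one] at this
      exact this.le.trans hs
    have h4 : v ^ (q + 1) • y < x⁻¹ ^ (a + 1) • y :=
      lt_of_le_of_lt (m.pow_mono_down h3 (by omega)) h2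
    have h5 := (m.lt_iff (x ^ (a + 1))).mpr h4
    rw [inv_pow, smul_inv_smul] at h5
    exact absurd hA (not_le.mpr h5)

/-- The primed version of `L1`. -/
theorem Mono.L1' (m : Mono H Ω) (h : x * v * w = 1) {y : Ω} {a b q : ℕ} (ha : 1 ≤ a)
    (hb : 1 ≤ b) (hq : a ≤ q) (hA : y ≤ (x ^ (a + 1) * v ^ q * x⁻¹) • y)
    (hC : y ≤ (w ^ b * x⁻¹ ^ (a + 1)) • y) (hx : y ≤ x • y) :
    x • y = y ∧ v • y = y ∧ w • y = y := by
  rw [mul_smul] at hC
  rw [mul_smul, mul_smul] at hA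
  rcases le_or_gt (w • y) y with hw | hw
  · exact m.eqs h hb (by omega) hC hx hw
  · exfalso
    have hs := m.xinv_down hx
    obtain ⟨a', rfl⟩ := Nat.exists_eq_add_of_le' ha
    have h1 : ∀ k ≤ a', x⁻¹ ^ k • x⁻¹ • y < w • x⁻¹ ^ k • x⁻¹ • y := by
      intro k hk
      have e : x⁻¹ ^ k • x⁻¹ • y = x⁻¹ ^ (k + 1) • y := by rw [pow_succ, mul_smul]
      rw [e]
      exact m.w_up hC hw (m.pow_mono_down hs (by omega)) (m.pow_down hs _)
    have h2 := m.vk_lt h h1 a' le_rfl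
    have h3 : v • x⁻¹ • y ≤ x⁻¹ • y := by
      have := m.vk_lt h h1 0 (Nat.zero_le _)
      rw [zero_add, pow_one, pow_one] at this
      exact this.le.trans ((m.le_iff _).mpr hs)
    have h4 : v ^ q • x⁻¹ • y < x⁻¹ ^ (a' + 1) • x⁻¹ • y :=
      lt_of_le_of_lt (m.pow_mono_down h3 hq) h2
    have e : x⁻¹ ^ (a' + 1) • x⁻¹ • y = x⁻¹ ^ (a' + 1 + 1) • y := by
      rw [pow_succ x⁻¹ (a' + 1), mul_smul]
    rw [e] at h4
    have h5 := (m.lt_iff (x ^ (a' + 1 + 1))).mpr h4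
    rw [inv_pow, smul_inv_smul] at h5
    exact absurd hA (not_le.mpr h5)

/-- If `C y ≥ y` and `x y > y` then `w` is up on `[x ^ (-a) y, y]`. -/
theorem Mono.LN_up (m : Mono H Ω) {y : Ω} {a b : ℕ} (ha : 1 ≤ a)
    (hC : y ≤ (w ^ (b + 1) * x⁻¹ ^ a) • y) (hx : y < x • y) : y < w • y := by
  rw [mul_smul] at hC
  by_contra hw
  rw [not_lt] at hw
  have hs := m.xinv_down_lt hx
  have h1 : x⁻¹ ^ a • y < y := m.pow_down_lt hs ha
  have h2 : w ^ (b + 1) • x⁻¹ ^ a • y < w ^ (b + 1) • y := (m.lt_iff _).mpr h1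
  exact absurd (lt_of_lt_of_le (lt_of_le_of_lt hC h2) (m.pow_down hw _)) (lt_irrefl _)

/-- If `C y ≥ y` and `x y > y` then `A' y < y`. -/
theorem Mono.LN (m : Mono H Ω) (h : x * v * w = 1) {y : Ω} {a b q : ℕ} (ha : 1 ≤ a) (hq : a ≤ q)
    (hC : y ≤ (w ^ (b + 1) * x⁻¹ ^ a) • y) (hx : y < x • y) :
    (x ^ (a + 1) * v ^ q * x⁻¹) • y < y := by
  have hw := m.LN_up ha hC hx
  rw [mul_smul] at hC
  rw [mul_smul, mul_smul]
  have hs := m.xinv_down hx.le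
  obtain ⟨a', rfl⟩ := Nat.exists_eq_add_of_le' ha
  have h1 : ∀ k ≤ a', x⁻¹ ^ k • x⁻¹ • y < w • x⁻¹ ^ k • x⁻¹ • y := by
    intro k hk
    have e : x⁻¹ ^ k • x⁻¹ • y = x⁻¹ ^ (k + 1) • y := by rw [pow_succ, mul_smul]
    rw [e]
    exact m.w_up hC hw (m.pow_mono_down hs (by omega)) (m.pow_down hs _)
  have h2 := m.vk_lt h h1 a' le_rfl
  have h3 : v • x⁻¹ • y ≤ x⁻¹ • y := by
    have := m.vk_lt h h1 0 (Nat.zero_le _)
    rw [zero_add, pow_one, pow_one] at this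
    exact this.le.trans ((m.le_iff _).mpr hs)
  have h4 : v ^ q • x⁻¹ • y < x⁻¹ ^ (a' + 1) • x⁻¹ • y :=
    lt_of_le_of_lt (m.pow_mono_down h3 hq) h2
  have e : x⁻¹ ^ (a' + 1) • x⁻¹ • y = x⁻¹ ^ (a' + 1 + 1) • y := by
    rw [pow_succ x⁻¹ (a' + 1), mul_smul]
  rw [e] at h4
  have h5 := (m.lt_iff (x ^ (a' + 1 + 1))).mpr h4
  rw [inv_pow, smul_inv_smul] at h5
  exact h5

end level
end act

end Pool.Agent.Helper52.L3
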