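import Pool.Agent.Helper52.L3.Hat

set_option autoImplicit false

/-!
# Elimination of the types
-/

namespace Pool.Agent.Helper52.L3

section fixpt
variable {H : Type*} [Group H] {Ω : Type*} [CompleteLinearOrder Ω] [MulAction H Ω]

/-- The first fixed point above a point that is moved down. -/
theorem Mono.first_fix (m : Mono H Ω) {g : H} {z t : Ω} (hz : g • z < z) (hzt : z ≤ t)
    (ht : t ≤ g • t) :
    ∃ β, z < β ∧ β ≤ t ∧ g • β = β ∧ ∀ u, z ≤ u → u < β → g • u < u := by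
  set S : Set Ω := {u | z ≤ u ∧ u ≤ g • u} with hS
  set β := sInf S with hβ
  have h1 : β ≤ t := sInf_le ⟨hzt, ht⟩
  have h2 : z ≤ β := le_sInf fun u hu => hu.1
  have h3 : ∀ u, z ≤ u → u < β → g • u < u := by
    intro u hu1 hu2
    by_contra h
    rw [not_lt] at h
    exact absurd (sInf_le (show u ∈ S from ⟨hu1, h⟩)) (not_le.mpr hu2)
  have h4 : β ≤ g • β := by
    rw [← m.inv_le_iff]
    apply le_sInf
    intro u hu
    rw [m.inv_le_iff]
    exact (sInf_le hu).trans hu.2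
  have h5 : z < β := by
    rcases h2.eq_or_lt with h | h
    · rw [← h] at h4
      exact absurd hz (not_lt.mpr h4)
    · exact h
  refine ⟨β, h5, h1, le_antisymm ?_ h4, h3⟩
  by_contra hcon
  rw [not_le] at hcon
  have h6 : g⁻¹ • β < β := (m.inv_lt_iff g).mpr hcon
  have h7 := h3 (max z (g⁻¹ • β)) (le_max_left _ _) (max_lt h5 h6)
  have h8 : β ≤ g • max z (g⁻¹ • β) := by
    rw [← m.inv_le_iff]; exact le_max_right _ _
  exact absurd (lt_of_le_of_lt h8 h7) (not_lt.mpr (max_lt h5 h6).le)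

/-- Not down at `z`, down at `t > z`: a fixed point in `[z, t)`. -/
theorem Mono.fix_ud (m : Mono H Ω) {g : H} {z t : Ω} (hz : z ≤ g • z) (hzt : z ≤ t)
    (ht : g • t < t) : ∃ r, z ≤ r ∧ r < t ∧ g • r = r := by
  have h1 : t < g⁻¹ • t := (m.lt_inv_iff g).mpr ht
  have h2 : g⁻¹ • z ≤ z := (m.inv_le_iff g).mpr hz
  obtain ⟨r, r1, r2, r3, _⟩ := Mono.first_fix (Ω := Ωᵒᵈ) (g := g⁻¹) (z := t) (t := z)
    m.dual h1 hzt h2
  exact ⟨r, r2, r1, inv_fix (Ω := Ω) r3⟩

end fixpt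

section elim
variable {H : Type*} [Group H] {Ω : Type*} [LinearOrder Ω] [MulAction H Ω]

theorem Mono.w_down_x (m : Mono H Ω) {x w : H} {z : Ω} {a c : ℕ}
    (hC : z < (w ^ c * x⁻¹ ^ a) • z) (hw : w • z ≤ z) : x • z < z := by
  by_contra h
  rw [not_lt] at h
  rw [mul_smul] at hC
  have h1 : x⁻¹ ^ a • z ≤ z := m.pow_down (m.xinv_down h) a
  exact absurd (lt_of_lt_of_le hC (((m.le_iff _).mpr h1).trans (m.pow_down hw c)))
    (lt_irrefl _)

/-- If `x` moves `u` down then it moves down all points of `[x ^ a u, u]`. -/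
theorem Mono.down_on (m : Mono H Ω) {x : H} {u z : Ω} {a : ℕ} (hx : x • u < u)
    (h1 : x ^ a • u ≤ z) (h2 : z ≤ u) : x • z < z := by
  by_contra h
  rw [not_lt] at h
  have h3 : z ≤ x ^ (a + 1) • z := m.pow_up h _
  have h4 : x ^ (a + 1) • z ≤ x ^ (a + 1) • u := (m.le_iff _).mpr h2
  have h5 : x ^ (a + 1) • u < x ^ a • u := by
    rw [pow_succ, mul_smul]
    exact (m.lt_iff _).mpr hx
  exact absurd (lt_of_le_of_lt (h1.trans (h3.trans h4)) h5) (lt_irrefl _)

/-- `w` up at `v ^ k • y` for `k ≤ n`. -/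
theorem Mono.vk_lt' (m : Mono H Ω) {x v w : H} (h : x * v * w = 1) {y : Ω} {n : ℕ}
    (hw : ∀ k ≤ n, v ^ k • y < w • v ^ k • y) :
    ∀ k ≤ n, v ^ (k + 1) • y < x⁻¹ ^ (k + 1) • y := by
  have hstep : ∀ k ≤ n, v ^ (k + 1) • y < x⁻¹ • v ^ k • y := by
    intro k hk
    rw [pow_succ', mul_smul, v_smul h]
    exact (m.lt_iff _).mpr (m.xinv_down_lt (hw k hk))
  intro k
  induction k with
  | zero =>
    intro h0
    have := hstep 0 h0
    simpa using this
  | succ k ih =>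
    intro h0
    refine (hstep (k + 1) h0).trans ?_
    rw [pow_succ' x⁻¹, mul_smul]
    exact (m.lt_iff _).mpr (ih (by omega))

/-- If `w u ≤ u` and `x u < u` then `A' u ≥ x ^ a u`. -/
theorem Mono.A_low' (m : Mono H Ω) {x v w : H} (h : x * v * w = 1) {u : Ω} (a q : ℕ)
    (hw : w • u ≤ u) (hx : x • u < u) : x ^ a • u ≤ (x ^ (a + 1) * v ^ q * x⁻¹) • u := by
  have h1 : x⁻¹ • u ≤ v • u := by
    rw [v_smul h]
    exact (m.le_iff _).mpr (m.xinv_up hw)
  have h2 : u ≤ x⁻¹ • u := (m.xinv_up_lt hx).le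
  have h3 : x⁻¹ • u ≤ v • x⁻¹ • u := h1.trans ((m.le_iff _).mpr h2)
  have h4 := (m.le_iff (x ^ (a + 1))).mpr (m.pow_up h3 q)
  rw [mul_smul, mul_smul]
  refine le_trans (le_of_eq ?_) h4
  rw [pow_succ, mul_smul, smul_inv_smul]

/-- If `w u ≤ u` and `x u < u` then `A u ≥ x ^ a u`. -/
theorem Mono.A_low (m : Mono H Ω) {x v w : H} (h : x * v * w = 1) {u : Ω} (a q : ℕ)
    (hw : w • u ≤ u) (hx : x • u < u) : x ^ a • u ≤ (x ^ (a + 1) * v ^ (q + 1)) • u := by
  have h1 : x⁻¹ • u ≤ v • u := by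
    rw [v_smul h]
    exact (m.le_iff _).mpr (m.xinv_up hw)
  have h2 : u ≤ v • u := (m.xinv_up_lt hx).le.trans h1
  have h3 := m.pow_mono_up h2 (show 1 ≤ q + 1 by omega)
  rw [pow_one] at h3
  have h4 := (m.le_iff (x ^ (a + 1))).mpr (h1.trans h3)
  rw [mul_smul]
  refine le_trans (le_of_eq ?_) h4
  rw [pow_succ, mul_smul, smul_inv_smul]

end elim

section elim
variable {H : Type*} [Group H] {Ω : Type*} [CompleteLinearOrder Ω] [MulAction H Ω]

/-- A convex invariant set on which all points have the first type. -/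
structure Plus (a b q : ℕ) (x v w : ZMod 3 → H) (K : Set Ω) : Prop where
  conv : ∀ z₁ z z₂, z₁ ∈ K → z₂ ∈ K → z₁ ≤ z → z ≤ z₂ → z ∈ K
  xK : ∀ i, ∀ z ∈ K, (x i)⁻¹ • z ∈ K
  wK : ∀ i, ∀ z ∈ K, w i • z ∈ K
  A : ∀ i, ∀ z ∈ K, (x i ^ (a + 1) * v i ^ (q + 1)) • z < z
  C : ∀ i, ∀ z ∈ K, z < (w i ^ (b + 1) * (x i)⁻¹ ^ a) • z
  D : ∀ i, ∀ z ∈ K, z < (w i ^ b * v i ^ q) • z

variable {a b q : ℕ} {x v w : ZMod 3 → H} {K : Set Ω}

/-- Two consecutive `w` cannot both be not up at a point. -/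
theorem R3.wwx (R : R3 a b q x v w) (m : Mono H Ω) (P : Plus a b q x v w K) (hb : 1 ≤ b)
    (hq : b ≤ q) {i j : ZMod 3} (hj : i + 1 = j) {u : Ω} (hu : u ∈ K) (h1 : w i • u ≤ u)
    (h2 : w j • u ≤ u) : False := by
  obtain ⟨k, hk⟩ : ∃ k, j + 1 = k := ⟨_, rfl⟩
  have hi : k + 1 = i := by rw [← hk, ← hj]; exact z3 i
  have Pi := R.prod i
  have Pj := R.prod j
  have Pk := R.prod k
  have X := R.xx i
  have RAi := R.relA i
  have A'i := R.A' i
  have A'k := R.A' k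
  rw [hj] at RAi A'i X
  rw [hk] at X
  rw [hi] at A'k
  have x1 : x i • u < u := m.w_down_x (P.C i u hu) h1
  have x2 : x j • u < u := m.w_down_x (P.C j u hu) h2
  have hxk : ∀ z : Ω, x i • z < z → x j • z < z → z < x k • z := by
    intro z hz1 hz2
    have e : (x k)⁻¹ = x j * x i := by
      have h1 : x k * (x j * x i) = 1 := by rw [← mul_assoc]; exact X
      exact (eq_inv_of_mul_eq_one_right h1).symm
    rw [← m.inv_lt_iff, e, mul_smul]
    exact ((m.lt_iff _).mpr hz1).trans hz2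
  have xk : u < x k • u := hxk u x1 x2
  have wk : u < w k • u := by
    by_contra hcon
    exact absurd (m.w_down_x (P.C k u hu) (not_lt.mp hcon)) (not_lt.mpr xk.le)
  obtain ⟨b', rfl⟩ := Nat.exists_eq_add_of_le' hb
  obtain ⟨q', rfl⟩ := Nat.exists_eq_add_of_le' (show 1 ≤ q by omega)
  have hD : u < w k ^ b' • v k ^ q' • (x k)⁻¹ • u := by
    have h3 := P.D k _ (P.wK k u hu)
    have e : (w k ^ (b' + 1) * v k ^ (q' + 1)) • w k • u =
        w k • w k ^ b' • v k ^ q' • (x k)⁻¹ • u := by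
      rw [smul_smul, smul_smul, smul_smul, smul_smul]
      congr 1
      rw [← vw_eq Pk, pow_succ (v k), pow_succ' (w k)]
      group
    rw [e, m.lt_iff] at h3
    exact h3
  have xk' : (x k)⁻¹ • u ≤ u := m.xinv_down xk.le
  have hD2 : u < w k ^ b' • v k ^ q' • u :=
    lt_of_lt_of_le hD ((m.le_iff _).mpr ((m.le_iff _).mpr xk'))
  have vk : v k • u ≤ u := by
    rw [v_smul Pk]
    exact ((m.le_iff _).mpr (m.xinv_down wk.le)).trans xk'
  have hup : ∀ n ≤ q', v k ^ n • u < w k • v k ^ n • u := fun n hn =>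
    m.w_up hD2.le wk (m.pow_mono_down vk hn) (m.pow_down vk n)
  have hpow : ∀ n l : ℕ, n + l ≤ q' →
      v k ^ (l + 1) • v k ^ n • u < (x k)⁻¹ ^ (l + 1) • v k ^ n • u := by
    intro n l hnl
    refine m.vk_lt' Pk (n := l) ?_ l le_rfl
    intro l' hl'
    have := hup (l' + n) (by omega)
    rwa [pow_add, mul_smul] at this
  -- the point `T`
  have T1 : x i ^ a • u ≤ (x j ^ (a + 1) * v j ^ (q' + 1 + 1)) • u := by
    rw [A'i]
    exact m.A_low' Pi a _ h1 x1
  have T2 : x j ^ a • u ≤ (x j ^ (a + 1) * v j ^ (q' + 1 + 1)) • u := m.A_low Pj a _ h2 x2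
  have T3 : (x j ^ (a + 1) * v j ^ (q' + 1 + 1)) • u ≤
      x k ^ (a + 1) • v k ^ (q' + 1) • u := by
    have h3 : (x j ^ (a + 1) * v j ^ (q' + 1 + 1)) • u ≤
        (x i ^ (a + 1) * v i ^ (q' + 1 + 1)) • u := by
      rw [RAi, mul_smul]
      exact (m.le_iff _).mpr h1
    refine h3.trans ?_
    rw [A'k, mul_smul, mul_smul]
    exact (m.le_iff _).mpr ((m.le_iff _).mpr xk')
  -- `x k` is up at `v k ^ n u`
  have hxup : ∀ n ≤ q', v k ^ n • u < x k • v k ^ n • u := by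
    intro n hn
    rcases le_or_gt ((x j ^ (a + 1) * v j ^ (q' + 1 + 1)) • u) (v k ^ n • u) with h3 | h3
    · have h4 := m.pow_down vk n
      exact hxk _ (m.down_on x1 (T1.trans h3) h4) (m.down_on x2 (T2.trans h3) h4)
    · have h4 : v k ^ n • u < x k ^ (a + 1) • v k ^ (q' + 1) • u := lt_of_lt_of_le h3 T3
      by_contra hcon
      rw [not_lt] at hcon
      rcases le_or_gt (n + a) q' with h5 | h5
      · have h6 : v k ^ (q' + 1) • u ≤ v k ^ (a + 1) • v k ^ n • u := by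
          rw [← mul_smul, ← pow_add]
          exact m.pow_mono_down vk (by omega)
        have h7 := lt_of_le_of_lt h6 (hpow n a h5)
        have h8 := (m.lt_iff (x k ^ (a + 1))).mpr h7
        rw [inv_pow, smul_inv_smul] at h8
        exact absurd (h4.trans h8) (lt_irrefl _)
      · obtain ⟨l, hl⟩ := Nat.exists_eq_add_of_le hn
        obtain ⟨r, hr⟩ := Nat.exists_eq_add_of_le (show l + 1 ≤ a + 1 by omega)
        have h6 := hpow n l (by omega)
        rw [← mul_smul, ← pow_add, show l + 1 + n = q' + 1 by omega] at h6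
        have h7 := (m.lt_iff (x k ^ (a + 1))).mpr h6
        have e : x k ^ (a + 1) • (x k)⁻¹ ^ (l + 1) • v k ^ n • u = x k ^ r • v k ^ n • u := by
          rw [hr, add_comm (l + 1) r, pow_add, mul_smul, inv_pow, smul_inv_smul]
        rw [e] at h7
        exact absurd ((h4.trans h7).trans_le (m.pow_down hcon r)) (lt_irrefl _)
  have hcmp : ∀ n ≤ q', v k ^ n • u ≤ (w k)⁻¹ ^ n • u := by
    intro n
    induction n with
    | zero => intro _; simp
    | succ n ih =>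
      intro hn
      have h3 := (hxup (n + 1) hn).le
      rw [pow_succ' (v k), mul_smul] at h3 ⊢
      rw [smul_smul (x k), xv_eq Pk] at h3
      refine h3.trans ?_
      rw [pow_succ' (w k)⁻¹, mul_smul]
      exact (m.le_iff _).mpr (ih (by omega))
  have h3 := hcmp b' (by omega)
  have h4 := (m.lt_iff (w k ^ b')⁻¹).mpr hD2
  rw [inv_smul_smul, ← inv_pow] at h4
  exact absurd (lt_of_le_of_lt h3 (lt_of_lt_of_le h4 (m.pow_mono_down vk (by omega))))
    (lt_irrefl _)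

/-- There are no points of the first type. -/
theorem R3.no_plus (R : R3 a b q x v w) (m : Mono H Ω) (P : Plus a b q x v w K) (hb : 1 ≤ b)
    (hbq : b ≤ q) (haq : a ≤ q) {z : Ω} (hz : z ∈ K) : False := by
  -- some `w i` is not up at `z`
  obtain ⟨i, hi⟩ : ∃ i, w i • z ≤ z := by
    by_contra hcon
    push Not at hcon
    have W := R.ww 0
    have h3 : w 0 • w (0 + 1) • w (0 + 1 + 1) • z = z := by
      rw [smul_smul, smul_smul, W, one_smul]
    have h4 : z < w 0 • w (0 + 1) • w (0 + 1 + 1) • z :=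
      (hcon 0).trans ((m.lt_iff _).mpr ((hcon (0 + 1)).trans
        ((m.lt_iff _).mpr (hcon (0 + 1 + 1)))))
    rw [h3] at h4
    exact absurd h4 (lt_irrefl _)
  -- a fixed point of `w i`
  obtain ⟨β, hβ, b3⟩ : ∃ β ∈ K, w i • β = β := by
    rcases hi.eq_or_lt with h | h
    · exact ⟨z, hz, h⟩
    have Pi := R.prod i
    have x1 : x i • z < z := m.w_down_x (P.C i z hz) h.le
    have x1' := m.xinv_up_lt x1
    obtain ⟨k, hk, hk2⟩ : ∃ k ≤ a, (x i)⁻¹ ^ k • z ≤ w i • (x i)⁻¹ ^ k • z := by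
      by_contra hcon
      push Not at hcon
      have h1 := Mono.vk_lt (Ω := Ωᵒᵈ) (y := z) (n := a) m.dual Pi hcon
      have h2 : (x i)⁻¹ ^ (a + 1) • z < v i ^ (a + 1) • z := h1 a le_rfl
      have h3 : (x i)⁻¹ ^ (0 + 1) • z < v i ^ (0 + 1) • z := h1 0 (Nat.zero_le _)
      rw [zero_add, pow_one, pow_one] at h3
      have h4 : z ≤ v i • z := (x1'.trans h3).le
      have h5 := lt_of_lt_of_le h2 (m.pow_mono_up h4 (show a + 1 ≤ q + 1 by omega))
      have h6 := (m.lt_iff (x i ^ (a + 1))).mpr h5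
      rw [inv_pow, smul_inv_smul, ← mul_smul] at h6
      exact absurd h6 (not_lt.mpr (P.A i z hz).le)
    have hzk : z ≤ (x i)⁻¹ ^ k • z := m.pow_up x1'.le k
    have hkK : (x i)⁻¹ ^ k • z ∈ K := by
      clear hk hk2 hzk
      induction k with
      | zero => simpa using hz
      | succ k ih => rw [pow_succ', mul_smul]; exact P.xK i _ ih
    obtain ⟨β, b1, b2, b3, _⟩ := m.first_fix h hzk hk2
    exact ⟨β, P.conv z β _ hz hkK b1.le b2, b3⟩
  -- another `w j` is not up at `β`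
  obtain ⟨j, hj⟩ : ∃ j, i + 1 = j := ⟨_, rfl⟩
  obtain ⟨k, hk⟩ : ∃ k, j + 1 = k := ⟨_, rfl⟩
  have hki : k + 1 = i := by rw [← hk, ← hj]; exact z3 i
  have W := R.ww j
  rw [hk, hki] at W
  have e1 : w j • w k • β = β := by
    have h3 : w j • w k • w i • β = β := by
      rw [smul_smul, smul_smul, W, one_smul]
    rwa [b3] at h3
  rcases le_total (w k • β) β with h | h
  · exact R.wwx m P hb hbq hki hβ h b3.le
  · have h4 : w j • β ≤ β := by
      have := (m.le_iff (w j)).mpr h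
      rwa [e1] at this
    exact R.wwx m P hb hbq hj hβ b3.le h4

end elim

section main
variable {H : Type*} [Group H] {Ω : Type*} [CompleteLinearOrder Ω] [MulAction H Ω]
  {a b q : ℕ} {x v w : ZMod 3 → H}

/-- The points that are on the same side of every fixed point as `y`. -/
def Comp (x v w : ZMod 3 → H) (y : Ω) : Set Ω :=
  {z | ∀ r, Fix x v w r → ((r < z ↔ r < y) ∧ (z < r ↔ y < r))}

theorem comp_smul (m : Mono H Ω) {y z : Ω} {g : H} (hg : ∀ r : Ω, Fix x v w r → g • r = r)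
    (hz : z ∈ Comp x v w y) : g • z ∈ Comp x v w y := by
  intro r hr
  have h1 := hz r hr
  have h2 := hg r hr
  constructor
  · rw [← h1.1, ← m.lt_iff g (y := r) (z := z), h2]
  · rw [← h1.2, ← m.lt_iff g (y := z) (z := r), h2]

theorem comp_not_fix {y z : Ω} (hn : ¬ Fix x v w y) (hz : z ∈ Comp x v w y) :
    ¬ Fix x v w z := by
  intro hf
  have h1 := hz z hf
  have h2 : ¬ z < y := fun h => absurd (h1.1.mpr h) (lt_irrefl _)
  have h3 : ¬ y < z := fun h => absurd (h1.2.mpr h) (lt_irrefl _)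
  have h4 : z = y := le_antisymm (not_lt.mp h3) (not_lt.mp h2)
  rw [h4] at hf
  exact hn hf

theorem comp_conv {y z₁ z z₂ : Ω} (h1 : z₁ ∈ Comp x v w y) (h2 : z₂ ∈ Comp x v w y)
    (h3 : z₁ ≤ z) (h4 : z ≤ z₂) : z ∈ Comp x v w y := by
  intro r hr
  have k1 := h1 r hr
  have k2 := h2 r hr
  constructor
  · exact ⟨fun h => k2.1.mp (lt_of_lt_of_le h h4), fun h => lt_of_lt_of_le (k1.1.mpr h) h3⟩
  · exact ⟨fun h => k1.2.mp (lt_of_le_of_lt h3 h), fun h => lt_of_le_of_lt h4 (k2.2.mpr h)⟩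

theorem self_comp (y : Ω) : y ∈ Comp x v w y := fun _ _ => ⟨Iff.rfl, Iff.rfl⟩

/-- The type is constant on `Comp`. -/
theorem R3.plus (R : R3 a b q x v w) (m : Mono H Ω) (ha : 1 ≤ a) (hb : 1 ≤ b)
    (haq : a + 1 ≤ q) (hbq : b + 1 ≤ q) {y : Ω} (hn : ¬ Fix x v w y) {i₀ : ZMod 3}
    (h : (x i₀ ^ (a + 1) * v i₀ ^ (q + 1)) • y < y) : Plus a b q x v w (Comp x v w y) := by
  have hne : ∀ i, ∀ z ∈ Comp x v w y, (x i ^ (a + 1) * v i ^ (q + 1)) • z ≠ z := by
    intro i z hz hcon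
    rcases R.type m ha hb haq hbq (comp_not_fix hn hz) i with ⟨h1, _, _⟩ | ⟨h1, _, _⟩
    · exact absurd hcon h1.ne
    · exact absurd hcon h1.ne'
  have hlev : ∀ i, (x i ^ (a + 1) * v i ^ (q + 1)) • y < y := by
    have h1 := R.type_next m ha hb haq hbq hn h
    have h2 := R.type_next m ha hb haq hbq hn h1
    intro j
    rcases z3' i₀ j with rfl | rfl | rfl
    · exact h
    · exact h1
    · exact h2
  have hA : ∀ i, ∀ z ∈ Comp x v w y, (x i ^ (a + 1) * v i ^ (q + 1)) • z < z := by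
    intro i z hz
    by_contra hcon
    rw [not_lt] at hcon
    rcases le_total y z with hyz | hyz
    · obtain ⟨r, r1, r2, r3, _⟩ := m.first_fix (hlev i) hyz hcon
      exact hne i r (comp_conv (self_comp y) hz r1.le r2) r3
    · obtain ⟨r, r1, r2, r3⟩ := m.fix_ud hcon hyz (hlev i)
      exact hne i r (comp_conv hz (self_comp y) r1 r2.le) r3
  have hT : ∀ i, ∀ z ∈ Comp x v w y, z < (w i ^ (b + 1) * (x i)⁻¹ ^ a) • z ∧
      z < (w i ^ b * v i ^ q) • z := by
    intro i z hz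
    rcases R.type m ha hb haq hbq (comp_not_fix hn hz) i with ⟨_, h2⟩ | ⟨h1, _, _⟩
    · exact h2
    · exact absurd h1 (not_lt.mpr (hA i z hz).le)
  refine ⟨fun z₁ z z₂ h1 h2 h3 h4 => comp_conv h1 h2 h3 h4, ?_, ?_, hA,
    fun i z hz => (hT i z hz).1, fun i z hz => (hT i z hz).2⟩
  · intro i z hz
    exact comp_smul m (fun r hr => fix_inv (hr i).1) hz
  · intro i z hz
    exact comp_smul m (fun r hr => (hr i).2.2) hz

/-- Everything is fixed. -/
theorem R3.fixed (R : R3 a b q x v w) (m : Mono H Ω) (ha : 1 ≤ a) (hb : 1 ≤ b)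
    (haq : a + 1 ≤ q) (hbq : b + 1 ≤ q) (y : Ω) : Fix x v w y := by
  by_contra hn
  rcases R.type m ha hb haq hbq hn 0 with ⟨h1, _, _⟩ | ⟨h1, _, _⟩
  · exact R.no_plus m (R.plus m ha hb haq hbq hn h1) hb (by omega) (by omega) (self_comp y)
  · have hn' : ¬ Fix (Ω := Ωᵒᵈ) x v w y := hn
    have P := R3.plus (Ω := Ωᵒᵈ) R m.dual ha hb haq hbq hn' (i₀ := 0) h1
    exact R3.no_plus (Ω := Ωᵒᵈ) R m.dual P hb (by omega) (by omega) (self_comp (Ω := Ωᵒᵈ) y)

end main

end Pool.Agent.Helper52.L3
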