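import Pool.Agent.Helper52.L3.Elim
import Pool.Agent.TH821.HexGroup

set_option autoImplicit false

/-!
# Left-ordered groups and the relations of threefold covers of pretzel knots
-/

namespace Pool.Agent.Helper52.L3

open Pool.Agent.W705.Borr Pool.Agent.TH821.Hex

section act
variable {H : Type*} [Group H] [LinearOrder H] (hinv : ∀ a b c : H, a ≤ b ↔ c * a ≤ c * b)

include hinv in
/-- In a left-ordered group the relations force triviality. -/
theorem rel_trivial {a b q : ℕ} (ha : 1 ≤ a) (hb : 1 ≤ b) (haq : a + 1 ≤ q) (hbq : b + 1 ≤ q)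
    {x v w : ZMod 3 → H} (R : R3 a b q x v w) (i : ZMod 3) : x i = 1 ∧ v i = 1 := by
  let : MulAction H (LowerSet H) :=
    { smul := fun g y => act hinv g y
      one_smul := act_one hinv
      mul_smul := act_mul hinv }
  have m : Mono H (LowerSet H) := fun g y z h => (act hinv g).lt_iff_lt.mpr h
  have hf := R.fixed m ha hb haq hbq
  exact ⟨eq_one_of_act hinv _ fun y => (hf y i).1, eq_one_of_act hinv _ fun y => (hf y i).2.1⟩

end act

section kernel
open Pool.Agent.TH821.Cyc
variable {G : Type*} [Group G]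

/-- Homomorphisms from the kernel of `d` to a left-ordered group are trivial. -/
theorem hom_trivial {s X V : G} (hs : s ^ 3 = 1)
    (hgen : ∀ K : Subgroup G, s ∈ K → X ∈ K → V ∈ K → K = ⊤)
    (d : G →* Multiplicative (ZMod 3)) (ds : d s = Multiplicative.ofAdd 1) (dX : d X = 1)
    (dV : d V = 1) {a b q : ℕ}
    (A : s * (X ^ (a + 1) * V ^ (q + 1)) * s⁻¹ = X ^ (a + 1) * V ^ (q + 1) * (X * V)⁻¹)
    (B : s * ((X * V)⁻¹ ^ b * V ^ q) * s⁻¹ = (X * V)⁻¹ ^ b * V ^ q * X⁻¹)
    {H : Type*} [Group H]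
    (triv : ∀ x v w : ZMod 3 → H, R3 a b q x v w → ∀ i, x i = 1 ∧ v i = 1)
    (φ : d.ker →* H) (g : d.ker) : φ g = 1 := by
  have hn : 0 < 3 := by norm_num
  set X' : d.ker := ⟨X, dX⟩ with hX'
  set V' : d.ker := ⟨V, dV⟩ with hV'
  set W' : d.ker := (X' * V')⁻¹ with hW'
  have key : ∀ (i : ZMod 3) (x y : d.ker), s * x.1 * s⁻¹ = y.1 →
      φ (ck d s (i + 1) x) = φ (ck d s i y) := by
    intro i x y hxy
    congr 1
    apply Subtype.ext
    show cj s x.1 (i + 1) = cj s y.1 i
    rw [cj_shift hn hs, hxy]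
  have R : R3 a b q (fun i => φ (ck d s i X')) (fun i => φ (ck d s i V'))
      (fun i => φ (ck d s i W')) := by
    refine ⟨?_, ?_, ?_⟩
    · intro i
      show φ (ck d s i X') * φ (ck d s i V') * φ (ck d s i W') = 1
      rw [← map_mul, ← map_mul, ← map_mul, ← map_mul, hW', mul_inv_cancel, map_one, map_one]
    · intro i
      have := key i (X' ^ (a + 1) * V' ^ (q + 1)) (X' ^ (a + 1) * V' ^ (q + 1) * W') A
      simpa only [map_mul, map_inv, map_pow] using this
    · intro i
      have := key i (W' ^ b * V' ^ q) (W' ^ b * V' ^ q * X'⁻¹) B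
      simpa only [map_mul, map_inv, map_pow] using this
  have triv := triv _ _ _ R
  have h1 : N 3 s X V ≤ φ.ker.map d.ker.subtype := by
    unfold N
    rw [Subgroup.closure_le]
    rintro _ (⟨i, rfl⟩ | ⟨i, rfl⟩)
    · exact ⟨ck d s i X', (triv i).1, rfl⟩
    · exact ⟨ck d s i V', (triv i).2, rfl⟩
  obtain ⟨g', hg', hgg⟩ := h1 (ker_le hn hs hgen d ds dX dV g.2)
  have : g' = g := Subtype.ext hgg
  rw [← this]; exact hg'

end kernel

end Pool.Agent.Helper52.L3
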