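import Pool.Agent.Helper52.L3.Rel

set_option autoImplicit false

/-!
# The reflected system, and the two types of points
-/

namespace Pool.Agent.Helper52.L3

section alg
variable {H : Type*} [Group H]

theorem cpow (β g : H) (n : ℕ) : (β⁻¹ * g * β) ^ n = β⁻¹ * g ^ n * β := by
  have := conj_pow (i := n) (a := β⁻¹) (b := g)
  rwa [inv_inv] at this

theorem cmul (β g h : H) : β⁻¹ * g * β * (β⁻¹ * h * β) = β⁻¹ * (g * h) * β := by group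

theorem hat1 {x v w : H} (a b q : ℕ) (α : H) :
    (x⁻¹ ^ a * α)⁻¹ * (w⁻¹ ^ (b + 1) * v⁻¹ ^ (q + 1)) * (x⁻¹ ^ a * α) =
      (x * α)⁻¹ * ((w ^ b * x⁻¹ ^ (a + 1))⁻¹ * (x ^ (a + 1) * v ^ (q + 1) * w)⁻¹) * (x * α) := by
  have h1 : x⁻¹ ^ (a + 1) = x⁻¹ ^ a * x⁻¹ := pow_succ _ _
  have h2 : x ^ (a + 1) = x * x ^ a := pow_succ' _ _
  have h3 : w⁻¹ ^ (b + 1) = (w ^ b)⁻¹ * w⁻¹ := by rw [pow_succ, inv_pow]
  have h4 : v⁻¹ ^ (q + 1) = (v ^ (q + 1))⁻¹ := by rw [inv_pow]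
  have h5 : (x ^ a)⁻¹ = x⁻¹ ^ a := by rw [inv_pow]
  rw [h1, h2, h3, h4]
  simp only [mul_inv_rev, h5, inv_inv, mul_assoc, inv_mul_cancel_left]

theorem hat2 {x v w : H} (a b q : ℕ) (α : H) :
    (x⁻¹ ^ a * α)⁻¹ * (w⁻¹ ^ (b + 1) * v⁻¹ ^ (q + 1)) * (x⁻¹ ^ a * α) *
      ((x⁻¹ ^ a * α)⁻¹ * x⁻¹ * (x⁻¹ ^ a * α)) =
      α⁻¹ * ((w ^ (b + 1) * x⁻¹ ^ a)⁻¹ * (x ^ (a + 1) * v ^ (q + 1))⁻¹) * α := by
  have h2 : x ^ (a + 1) = x ^ a * x := pow_succ _ _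
  have h3 : w⁻¹ ^ (b + 1) = (w ^ (b + 1))⁻¹ := by rw [inv_pow]
  have h4 : v⁻¹ ^ (q + 1) = (v ^ (q + 1))⁻¹ := by rw [inv_pow]
  have h5 : (x ^ a)⁻¹ = x⁻¹ ^ a := by rw [inv_pow]
  rw [h2, h3, h4]
  simp only [mul_inv_rev, h5, mul_assoc, mul_inv_cancel_left]

theorem hat3 {x v : H} (a q : ℕ) (α : H) :
    (x⁻¹ ^ a * α)⁻¹ * (x⁻¹ ^ a * v⁻¹ ^ q) * (x⁻¹ ^ a * α) =
      (x * α)⁻¹ * (x ^ (a + 1) * v ^ q * x⁻¹)⁻¹ * (x * α) := by
  have h2 : x ^ (a + 1) = x * x ^ a := pow_succ' _ _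
  have h4 : v⁻¹ ^ q = (v ^ q)⁻¹ := by rw [inv_pow]
  have h5 : (x ^ a)⁻¹ = x⁻¹ ^ a := by rw [inv_pow]
  rw [h2, h4]
  simp only [mul_inv_rev, h5, inv_inv, mul_assoc, inv_mul_cancel_left]

theorem hat4 {x v w : H} (h : x * v * w = 1) (a q : ℕ) (α : H) :
    (x⁻¹ ^ a * α)⁻¹ * (x⁻¹ ^ a * v⁻¹ ^ q) * (x⁻¹ ^ a * α) *
      ((x⁻¹ ^ a * α)⁻¹ * w⁻¹ * (x⁻¹ ^ a * α))⁻¹ =
      α⁻¹ * (x ^ (a + 1) * v ^ (q + 1))⁻¹ * α := by
  have h2 : x ^ (a + 1) = x ^ a * x := pow_succ _ _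
  have h4 : v⁻¹ ^ q = (v ^ q)⁻¹ := by rw [inv_pow]
  have h5 : (x ^ a)⁻¹ = x⁻¹ ^ a := by rw [inv_pow]
  have h6 : v ^ (q + 1) = v * v ^ q := pow_succ' _ _
  have h7 : w = v⁻¹ * x⁻¹ := by rw [← mul_inv_rev, xv_eq h, inv_inv]
  rw [h2, h4, h6, h7]
  simp only [mul_inv_rev, h5, inv_inv, mul_assoc, mul_inv_cancel_left, inv_mul_cancel_left]

variable {a b q : ℕ} {x v w : ZMod 3 → H}

/-- The conjugator at level `j`. -/
def hb (a : ℕ) (x α : ZMod 3 → H) (j : ZMod 3) : H := (x j)⁻¹ ^ a * α j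

/-- Conjugates of inverses, in the reversed order of the levels. -/
def hat (a : ℕ) (x α g : ZMod 3 → H) (i : ZMod 3) : H :=
  (hb a x α (-i))⁻¹ * (g (-i))⁻¹ * hb a x α (-i)

theorem exists_alpha (R : R3 a b q x v w) : ∃ α : ZMod 3 → H, ∀ j, α (j + 1) = x j * α j := by
  refine ⟨fun j => if j = 0 then 1 else if j = 1 then x 0 else x 1 * x 0, ?_⟩
  intro j
  have h := R.xx 0
  have e2 : (0 : ZMod 3) + 1 + 1 = 2 := by decide
  have e1 : (0 : ZMod 3) + 1 = 1 := by decide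
  rw [e2, e1] at h
  have hj : j = 0 ∨ j = 1 ∨ j = 2 := by revert j; decide
  rcases hj with rfl | rfl | rfl
  · simp [show (1 : ZMod 3) ≠ 0 by decide]
  · have : (1 : ZMod 3) + 1 = 2 := by decide
    simp [this, show (1 : ZMod 3) ≠ 0 by decide, show (2 : ZMod 3) ≠ 0 by decide,
      show (2 : ZMod 3) ≠ 1 by decide]
  · have : (2 : ZMod 3) + 1 = 0 := by decide
    simp only [this, if_true, show (2 : ZMod 3) ≠ 0 by decide, show (2 : ZMod 3) ≠ 1 by decide,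
      if_false]
    rw [← mul_assoc]; exact h.symm

theorem R3.hatA (R : R3 a b q x v w) {α : ZMod 3 → H} (hα : ∀ j, α (j + 1) = x j * α j)
    {i k : ZMod 3} (hk : -i = k) :
    hat a x α w i ^ (b + 1) * hat a x α v i ^ (q + 1) =
      (α (k + 1))⁻¹ * ((w (k + 1) ^ (b + 1) * (x (k + 1))⁻¹ ^ a)⁻¹ *
        (x (k + 1) ^ (a + 1) * v (k + 1) ^ (q + 1))⁻¹) * α (k + 1) := by
  unfold hat hb
  rw [hk, cpow, cpow, cmul, hat1, ← R.C' k, ← R.relA k, hα]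

theorem R3.hatD (R : R3 a b q x v w) {α : ZMod 3 → H} (hα : ∀ j, α (j + 1) = x j * α j)
    {i k : ZMod 3} (hk : -i = k) :
    hat a x α x i ^ a * hat a x α v i ^ q =
      (α (k + 1))⁻¹ * (x (k + 1) ^ (a + 1) * v (k + 1) ^ (q + 1))⁻¹ * α (k + 1) := by
  unfold hat hb
  rw [hk, cpow, cpow, cmul, hat3, ← R.A' k, hα]

theorem hat_prod (h : ∀ i, x i * v i * w i = 1) (α : ZMod 3 → H) (i : ZMod 3) :
    hat a x α w i * hat a x α v i * hat a x α x i = 1 := by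
  unfold hat
  rw [cmul, cmul, ← mul_inv_rev, ← mul_inv_rev, ← mul_assoc, h]
  group

theorem R3.hat (R : R3 a b q x v w) {α : ZMod 3 → H} (hα : ∀ j, α (j + 1) = x j * α j) :
    R3 b a q (hat a x α w) (hat a x α v) (hat a x α x) := by
  refine ⟨hat_prod R.prod α, ?_, ?_⟩
  · intro i
    have hk : -i = -(i + 1) + 1 := by ring
    rw [R.hatA hα (i := i + 1) rfl]
    unfold Pool.Agent.Helper52.L3.hat hb
    rw [hk, cpow, cpow, cmul, hat2]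
  · intro i
    have hk : -i = -(i + 1) + 1 := by ring
    rw [R.hatD hα (i := i + 1) rfl]
    unfold Pool.Agent.Helper52.L3.hat hb
    rw [hk, cpow, cpow, cmul, hat4 (R.prod _)]

end alg

section act
variable {H : Type*} [Group H] {Ω : Type*} [LinearOrder Ω] [MulAction H Ω]
  {a b q : ℕ} {x v w : ZMod 3 → H}

theorem unhat {α : ZMod 3 → H} {z : Ω}
    (hf : Fix (hat a x α w) (hat a x α v) (hat a x α x) z) (k : ZMod 3) :
    FixAt x v w k (α k • z) := by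
  have key : ∀ g : ZMod 3 → H, hat a x α g (-k) • z = z →
      g k • hb a x α k • z = hb a x α k • z := by
    intro g hg
    unfold hat at hg
    rw [neg_neg, mul_smul, mul_smul] at hg
    have h1 := congrArg (fun u => hb a x α k • u) hg
    simp only [smul_inv_smul] at h1
    exact inv_fix h1
  obtain ⟨h1, h2, h3⟩ := hf (-k)
  have k1 := key w h1
  have k2 := key v h2
  have k3 := key x h3
  have e : hb a x α k • z = α k • z := by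
    have h4 := pow_fix k3 a
    unfold hb at h4 ⊢
    rw [mul_smul, inv_pow, smul_inv_smul] at h4
    rw [mul_smul, inv_pow]
    exact h4.symm
  rw [e] at k1 k2 k3
  exact ⟨k3, k2, k1⟩

/-- `D y ≥ y` and `C y ≤ y` is impossible unless `y` is fixed. -/
theorem R3.Sb_excl (R : R3 a b q x v w) (m : Mono H Ω) (ha : 1 ≤ a) (hb : 1 ≤ b)
    (haq : a ≤ q) (hbq : b + 1 ≤ q) {i : ZMod 3} {y : Ω} (hD : y ≤ (w i ^ b * v i ^ q) • y)
    (hC : (w i ^ (b + 1) * (x i)⁻¹ ^ a) • y ≤ y) : Fix x v w y := by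
  obtain ⟨α, hα⟩ := exists_alpha R
  have Rh := R.hat hα
  obtain ⟨k, hk⟩ : ∃ k : ZMod 3, k + 1 = i := ⟨i - 1, by ring⟩
  set C := w i ^ (b + 1) * (x i)⁻¹ ^ a with hCd
  set A := x i ^ (a + 1) * v i ^ (q + 1) with hAd
  have hDC : w i ^ b * v i ^ q = C * A := by
    rw [hCd, hAd, ← fC (R.prod i) a b q]; group
  have h1 := R.hatA hα (i := -k) (k := k) (neg_neg k)
  have h2 := R.hatD hα (i := -k) (k := k) (neg_neg k)
  rw [hk, ← hCd, ← hAd] at h1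
  rw [hk, ← hAd] at h2
  have h3 := fC (Rh.prod (-k)) b a q
  rw [h1, h2] at h3
  have h4 : (α i)⁻¹ * A⁻¹ * α i * ((α i)⁻¹ * (C⁻¹ * A⁻¹) * α i)⁻¹ = (α i)⁻¹ * C * α i := by
    group
  rw [h4] at h3
  set z := (α i)⁻¹ • C⁻¹ • y with hz
  have e1 : α i • z = C⁻¹ • y := by rw [hz, smul_inv_smul]
  have hA' : (Pool.Agent.Helper52.L3.hat a x α w (-k) ^ (b + 1) *
      Pool.Agent.Helper52.L3.hat a x α v (-k) ^ (q + 1)) • z ≤ z := by
    have e2 : A⁻¹ • C⁻¹ • y = (C * A)⁻¹ • y := by rw [smul_smul, ← mul_inv_rev C A]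
    rw [h1, mul_smul, mul_smul, mul_smul C⁻¹ A⁻¹, e1, e2, hz, m.le_iff, m.le_iff, m.inv_le_iff,
      ← hDC]
    exact hD
  have hC' : (Pool.Agent.Helper52.L3.hat a x α x (-k) ^ (a + 1) *
      (Pool.Agent.Helper52.L3.hat a x α w (-k))⁻¹ ^ b) • z ≤ z := by
    rw [← h3, mul_smul, mul_smul, e1, smul_inv_smul, hz, m.le_iff, m.le_inv_iff]
    exact hC
  have hf : Fix (Pool.Agent.Helper52.L3.hat a x α w) (Pool.Agent.Helper52.L3.hat a x α v)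
      (Pool.Agent.Helper52.L3.hat a x α x) z :=
    R3.S_excl (Ω := Ωᵒᵈ) Rh m.dual hb ha hbq hA' hC'
  have hf' := unhat hf i
  rw [e1] at hf'
  have e3 : C • C⁻¹ • y = C⁻¹ • y := by
    obtain ⟨f1, f2, f3⟩ := hf'
    rw [hCd, mul_smul, pow_fix (fix_inv f1), pow_fix f3]
  rw [smul_inv_smul] at e3
  rw [← e3] at hf'
  exact R.fix_all m ha haq hf'

/-- Every point that is not fixed has one of two types. -/
theorem R3.type (R : R3 a b q x v w) (m : Mono H Ω) (ha : 1 ≤ a) (hb : 1 ≤ b)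
    (haq : a + 1 ≤ q) (hbq : b + 1 ≤ q) {y : Ω} (hn : ¬ Fix x v w y) (i : ZMod 3) :
    ((x i ^ (a + 1) * v i ^ (q + 1)) • y < y ∧ y < (w i ^ (b + 1) * (x i)⁻¹ ^ a) • y ∧
      y < (w i ^ b * v i ^ q) • y) ∨
    (y < (x i ^ (a + 1) * v i ^ (q + 1)) • y ∧ (w i ^ (b + 1) * (x i)⁻¹ ^ a) • y < y ∧
      (w i ^ b * v i ^ q) • y < y) := by
  have n1 : y ≤ (x i ^ (a + 1) * v i ^ (q + 1)) • y →
      (w i ^ (b + 1) * (x i)⁻¹ ^ a) • y < y := by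
    intro h
    by_contra h2
    exact hn (R.S_excl m ha hb haq h (not_lt.mp h2))
  have n2 : (x i ^ (a + 1) * v i ^ (q + 1)) • y ≤ y →
      y < (w i ^ (b + 1) * (x i)⁻¹ ^ a) • y := by
    intro h
    by_contra h2
    exact hn (R3.S_excl (Ω := Ωᵒᵈ) R m.dual ha hb haq h (not_lt.mp h2))
  have n3 : (w i ^ (b + 1) * (x i)⁻¹ ^ a) • y ≤ y → (w i ^ b * v i ^ q) • y < y := by
    intro h
    by_contra h2
    exact hn (R.Sb_excl m ha hb (by omega) hbq (not_lt.mp h2) h)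
  have n4 : y ≤ (w i ^ (b + 1) * (x i)⁻¹ ^ a) • y → y < (w i ^ b * v i ^ q) • y := by
    intro h
    by_contra h2
    exact hn (R3.Sb_excl (Ω := Ωᵒᵈ) R m.dual ha hb (by omega) hbq (not_lt.mp h2) h)
  rcases lt_trichotomy ((x i ^ (a + 1) * v i ^ (q + 1)) • y) y with h | h | h
  · have h2 := n2 h.le
    exact Or.inl ⟨h, h2, n4 h2.le⟩
  · exact absurd (n1 h.ge) (not_lt.mpr (n2 h.le).le)
  · have h2 := n1 h.le
    exact Or.inr ⟨h, h2, n3 h2.le⟩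

/-- The type is kept from level `i` to level `i + 1`. -/
theorem R3.type_next (R : R3 a b q x v w) (m : Mono H Ω) (ha : 1 ≤ a) (hb : 1 ≤ b)
    (haq : a + 1 ≤ q) (hbq : b + 1 ≤ q) {y : Ω} (hn : ¬ Fix x v w y) {i : ZMod 3}
    (h : (x i ^ (a + 1) * v i ^ (q + 1)) • y < y) :
    (x (i + 1) ^ (a + 1) * v (i + 1) ^ (q + 1)) • y < y := by
  rcases R.type m ha hb haq hbq hn i with ⟨h1, h2, h3⟩ | ⟨h1, _, _⟩
  swap
  · exact absurd h (not_lt.mpr h1.le)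
  rcases R.type m ha hb haq hbq hn (i + 1) with ⟨h4, _, _⟩ | ⟨h4, _, h6⟩
  · exact h4
  · exfalso
    have h7 : (x i)⁻¹ • y < y := by
      rw [R.relD, mul_smul] at h6
      exact (m.lt_iff _).mp (h6.trans h3)
    have h8 : y < x i • y := (m.inv_lt_iff _).mp h7
    have h9 := m.LN (R.prod i) ha (show a ≤ q by omega) h2.le h8
    rw [← R.A' i] at h9
    exact absurd h4 (not_lt.mpr h9.le)

end act

end Pool.Agent.Helper52.L3
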