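import Pool.Agent.Helper52.L3.Basic

set_option autoImplicit false

/-!
# The relations, and the exclusion of `A y ≥ y, C y ≥ y`
-/

namespace Pool.Agent.Helper52.L3

/-- The relations. -/
structure R3 {H : Type*} [Group H] (a b q : ℕ) (x v w : ZMod 3 → H) : Prop where
  prod : ∀ i, x i * v i * w i = 1
  relA : ∀ i, x (i + 1) ^ (a + 1) * v (i + 1) ^ (q + 1) = x i ^ (a + 1) * v i ^ (q + 1) * w i
  relD : ∀ i, w (i + 1) ^ b * v (i + 1) ^ q = w i ^ b * v i ^ q * (x i)⁻¹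

section alg
variable {H : Type*} [Group H]

section one
variable {x v w : H} (h : x * v * w = 1)
include h

theorem xv_eq : x * v = w⁻¹ := eq_inv_of_mul_eq_one_left h

theorem vw_eq : v * w = x⁻¹ := by
  have : x * (v * w) = 1 := by rw [← mul_assoc]; exact h
  exact eq_inv_of_mul_eq_one_right this

theorem wx_eq : w * x = v⁻¹ := by
  have h1 := xv_eq h
  have h2 : w = (x * v)⁻¹ := by rw [h1, inv_inv]
  rw [h2]; group

theorem fC (a b q : ℕ) :
    w ^ b * v ^ q * (x ^ (a + 1) * v ^ (q + 1))⁻¹ = w ^ (b + 1) * x⁻¹ ^ a := by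
  have h1 : v ^ q * (v ^ (q + 1))⁻¹ = v⁻¹ := by rw [pow_succ']; group
  have h2 : x * (x ^ (a + 1))⁻¹ = x⁻¹ ^ a := by rw [pow_succ]; group
  calc w ^ b * v ^ q * (x ^ (a + 1) * v ^ (q + 1))⁻¹
      = w ^ b * (v ^ q * (v ^ (q + 1))⁻¹) * (x ^ (a + 1))⁻¹ := by group
    _ = w ^ b * (w * x) * (x ^ (a + 1))⁻¹ := by rw [h1, wx_eq h]
    _ = w ^ b * w * (x * (x ^ (a + 1))⁻¹) := by group
    _ = _ := by rw [h2, pow_succ]

theorem fC' (a b q : ℕ) :
    w ^ b * v ^ q * x⁻¹ * (x ^ (a + 1) * v ^ (q + 1) * w)⁻¹ = w ^ b * x⁻¹ ^ (a + 1) := by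
  have h1 : v ^ q * v * (v ^ (q + 1))⁻¹ = 1 := by rw [pow_succ]; group
  have h2 : (x ^ (a + 1))⁻¹ = x⁻¹ ^ (a + 1) := by rw [inv_pow]
  have h3 : x⁻¹ * w⁻¹ = v := by rw [← xv_eq h]; group
  calc w ^ b * v ^ q * x⁻¹ * (x ^ (a + 1) * v ^ (q + 1) * w)⁻¹
      = w ^ b * (v ^ q * (x⁻¹ * w⁻¹) * (v ^ (q + 1))⁻¹) * (x ^ (a + 1))⁻¹ := by group
    _ = _ := by rw [h3, h1, h2, mul_one]

theorem fA' (a q : ℕ) : x ^ (a + 1) * v ^ (q + 1) * w = x ^ (a + 1) * v ^ q * x⁻¹ := by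
  calc x ^ (a + 1) * v ^ (q + 1) * w = x ^ (a + 1) * v ^ q * (v * w) := by
        rw [pow_succ v]; group
    _ = _ := by rw [vw_eq h]

end one

variable {a b q : ℕ} {x v w : ZMod 3 → H}

theorem z3 (i : ZMod 3) : i + 1 + 1 + 1 = i := by
  revert i; decide

theorem z3' (i j : ZMod 3) : j = i ∨ j = i + 1 ∨ j = i + 1 + 1 := by
  revert i j; decide

theorem R3.A' (R : R3 a b q x v w) (i : ZMod 3) :
    x (i + 1) ^ (a + 1) * v (i + 1) ^ (q + 1) = x i ^ (a + 1) * v i ^ q * (x i)⁻¹ := by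
  rw [R.relA, fA' (R.prod i)]

theorem R3.C' (R : R3 a b q x v w) (i : ZMod 3) :
    w (i + 1) ^ (b + 1) * (x (i + 1))⁻¹ ^ a = w i ^ b * (x i)⁻¹ ^ (a + 1) := by
  rw [← fC (R.prod (i + 1)) a b q, R.relA, R.relD, fC' (R.prod i)]

theorem R3.CC (R : R3 a b q x v w) (i : ZMod 3) :
    w i * ((w (i + 1) ^ (b + 1) * (x (i + 1))⁻¹ ^ a) * x i) = w i ^ (b + 1) * (x i)⁻¹ ^ a := by
  rw [R.C' i, pow_succ' (w i), pow_succ (x i)⁻¹]
  group

theorem R3.ww (R : R3 a b q x v w) (i : ZMod 3) : w i * w (i + 1) * w (i + 1 + 1) = 1 := by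
  have h0 := R.relA i
  have h1 := R.relA (i + 1)
  have h2 := R.relA (i + 1 + 1)
  rw [z3, h1, h0] at h2
  have h3 : x i ^ (a + 1) * v i ^ (q + 1) * 1 =
      x i ^ (a + 1) * v i ^ (q + 1) * (w i * w (i + 1) * w (i + 1 + 1)) := by
    rw [mul_one]
    simpa only [mul_assoc] using h2
  exact (mul_left_cancel h3).symm

theorem R3.xx (R : R3 a b q x v w) (i : ZMod 3) : x (i + 1 + 1) * x (i + 1) * x i = 1 := by
  have h0 := R.relD i
  have h1 := R.relD (i + 1)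
  have h2 := R.relD (i + 1 + 1)
  rw [z3, h1, h0] at h2
  have h3 : w i ^ b * v i ^ q * 1 =
      w i ^ b * v i ^ q * (x (i + 1 + 1) * x (i + 1) * x i)⁻¹ := by
    rw [mul_one]
    simpa only [mul_assoc, mul_inv_rev] using h2
  have h4 := (mul_left_cancel h3).symm
  rwa [inv_eq_one] at h4

end alg

section act
variable {H : Type*} [Group H] {Ω : Type*} [LinearOrder Ω] [MulAction H Ω]
  {a b q : ℕ} {x v w : ZMod 3 → H}

/-- Everything at level `i` fixes `y`. -/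
def FixAt (x v w : ZMod 3 → H) (i : ZMod 3) (y : Ω) : Prop :=
  x i • y = y ∧ v i • y = y ∧ w i • y = y

/-- Everything fixes `y`. -/
def Fix (x v w : ZMod 3 → H) (y : Ω) : Prop := ∀ i, FixAt x v w i y

theorem R3.fix_next (R : R3 a b q x v w) (m : Mono H Ω) (ha : 1 ≤ a) (hq : a ≤ q) {i : ZMod 3}
    {y : Ω} (hf : FixAt x v w i y) : FixAt x v w (i + 1) y := by
  obtain ⟨hx, hv, hw⟩ := hf
  have hA : (x (i + 1) ^ (a + 1) * v (i + 1) ^ (q + 1)) • y = y := by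
    rw [R.A', mul_smul, mul_smul, fix_inv hx, pow_fix hv, pow_fix hx]
  have hC : (w (i + 1) ^ (b + 1) * (x (i + 1))⁻¹ ^ a) • y = y := by
    rw [R.C', mul_smul, pow_fix (fix_inv hx), pow_fix hw]
  rcases le_total y (x (i + 1) • y) with h | h
  · exact m.L1 (R.prod _) ha hq hA.ge hC.ge h
  · exact Mono.L1 (Ω := Ωᵒᵈ) m.dual (R.prod (i + 1)) (b := b) ha hq hA.le hC.le h

theorem R3.fix_all (R : R3 a b q x v w) (m : Mono H Ω) (ha : 1 ≤ a) (hq : a ≤ q) {i : ZMod 3}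
    {y : Ω} (hf : FixAt x v w i y) : Fix x v w y := by
  have h1 := R.fix_next m ha hq hf
  have h2 := R.fix_next m ha hq h1
  intro j
  rcases z3' i j with rfl | rfl | rfl
  · exact hf
  · exact h1
  · exact h2

/-- `A y ≥ y` and `C y ≥ y` is impossible unless `y` is fixed. -/
theorem R3.S_excl (R : R3 a b q x v w) (m : Mono H Ω) (ha : 1 ≤ a) (hb : 1 ≤ b)
    (hq : a + 1 ≤ q) {i : ZMod 3} {y : Ω} (hA : y ≤ (x i ^ (a + 1) * v i ^ (q + 1)) • y)
    (hC : y ≤ (w i ^ (b + 1) * (x i)⁻¹ ^ a) • y) : Fix x v w y := by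
  by_contra hn
  have haq : a ≤ q := by omega
  -- names
  obtain ⟨j, hj⟩ : ∃ j, j = i + 1 := ⟨_, rfl⟩
  obtain ⟨k, hk⟩ : ∃ k, k = j + 1 := ⟨_, rfl⟩
  have hi : k + 1 = i := by rw [hk, hj]; exact z3 i
  have RAi := R.relA i
  have RAj := R.relA j
  have RAk := R.relA k
  have RDi := R.relD i
  have RDj := R.relD j
  have RDk := R.relD k
  have A'i := R.A' i
  have A'j := R.A' j
  have A'k := R.A' k
  have C'i := R.C' i
  have C'j := R.C' j
  have C'k := R.C' k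
  have Www := R.ww i
  have Xxx := R.xx i
  have CCj := R.CC j
  rw [← hj] at RAi RDi A'i C'i Www Xxx
  rw [← hk] at RAj RDj A'j C'j Www Xxx CCj
  rw [hi] at RAk RDk A'k C'k
  have Pi := R.prod i
  have Pj := R.prod j
  have Pk := R.prod k
  -- step 1
  have s1 : x i • y < y := by
    by_contra h
    rw [not_lt] at h
    exact hn (R.fix_all m ha haq (m.L1 Pi ha haq hA hC h))
  -- step 2
  have s2 : x k • y < y := by
    by_contra h
    rw [not_lt] at h
    have hA' := hA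
    have hC' := hC
    rw [A'k] at hA'
    rw [C'k] at hC'
    exact hn (R.fix_all m ha haq (m.L1' Pk ha hb haq hA' hC' h))
  have s1' : y < (x i)⁻¹ • y := m.xinv_up_lt s1
  have s2' : y < (x k)⁻¹ • y := m.xinv_up_lt s2
  have ex : x j = (x k)⁻¹ * (x i)⁻¹ := by
    have h1 : x k * (x j * x i) = 1 := by rw [← mul_assoc]; exact Xxx
    have h2 : x j * x i = (x k)⁻¹ := eq_inv_of_mul_eq_one_right h1
    rw [← h2]; group
  -- step 3
  have s3 : y < x j • y := by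
    rw [ex, mul_smul]
    exact s2'.trans ((m.lt_iff _).mpr s1')
  have hxia : y < (x i)⁻¹ ^ (a + 1) • y := m.pow_up_lt s1' (by omega)
  -- step 4
  have s4 : w i • y < y := by
    by_contra h
    rw [not_lt] at h
    have h1 : y ≤ (x j ^ (a + 1) * v j ^ (q + 1)) • y := by
      rw [RAi, mul_smul]
      exact hA.trans ((m.le_iff _).mpr h)
    have h2 : y ≤ (w j ^ (b + 1) * (x j)⁻¹ ^ a) • y := by
      rw [C'i, mul_smul]
      exact (m.pow_up h b).trans ((m.le_iff _).mpr hxia.le)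
    exact absurd (m.L1 Pj ha haq h1 h2 s3.le).1 s3.ne'
  have s4' : y < (w i)⁻¹ • y := m.xinv_up_lt s4
  -- step 5
  have s5 : y < (w j ^ (b + 1) * (x j)⁻¹ ^ a) • y := by
    rw [C'i, mul_smul]
    have h1 : (w i)⁻¹ • y ≤ w i ^ b • (x i)⁻¹ ^ a • y := by
      have h2 := (m.le_iff (w i)⁻¹).mpr hC
      rwa [mul_smul, pow_succ', mul_smul, inv_smul_smul] at h2
    have h3 : (x i)⁻¹ ^ a • y ≤ (x i)⁻¹ ^ (a + 1) • y :=
      m.pow_mono_up s1'.le (Nat.le_succ a)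
    exact lt_of_lt_of_le (lt_of_lt_of_le s4' h1) ((m.le_iff _).mpr h3)
  -- step 6, 7
  have s6 : y < w j • y := m.LN_up ha s5.le s3
  have s6v : v j • y < y := by
    rw [v_smul Pj]
    exact lt_trans ((m.lt_iff _).mpr (m.xinv_down_lt s6)) (m.xinv_down_lt s3)
  have s7 : (x k ^ (a + 1) * v k ^ (q + 1)) • y < y := by
    rw [A'j]
    exact m.LN Pj ha haq s5.le s3
  -- step 8
  have s8 : y < w k • y := by
    by_contra h
    rw [not_lt] at h
    have h1 : (x i ^ (a + 1) * v i ^ (q + 1)) • y < y := by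
      rw [RAk, mul_smul]
      exact lt_of_le_of_lt ((m.le_iff _).mpr h) s7
    exact absurd hA (not_le.mpr h1)
  -- step 9
  have s9 : y < (w k ^ (b + 1) * (x k)⁻¹ ^ a) • y := by
    rw [mul_smul]
    have h1 : y < w k ^ (b + 1) • y := m.pow_up_lt s8 (by omega)
    exact lt_of_lt_of_le h1 ((m.le_iff _).mpr (m.pow_up s2'.le a))
  -- step 10 (alpha)
  have s10 : y < (w k)⁻¹ • (x k)⁻¹ • y := by
    have hA' := hA
    rw [A'k, mul_smul, mul_smul] at hA'
    have h1 := (m.le_iff (x k ^ (a + 1))⁻¹).mpr hA'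
    rw [inv_smul_smul, ← inv_pow] at h1
    have h2 : (x k)⁻¹ • y < (x k)⁻¹ ^ (a + 1) • y := by
      rw [pow_succ', mul_smul]
      exact (m.lt_iff _).mpr (m.pow_up_lt s2' ha)
    have h3 : (x k)⁻¹ • y < v k • (x k)⁻¹ • y := by
      by_contra h
      rw [not_lt] at h
      exact absurd (lt_of_lt_of_le (lt_of_lt_of_le h2 h1) (m.pow_down h q)) (lt_irrefl _)
    have h4 := (m.lt_iff (x k)).mpr h3
    rw [smul_inv_smul, smul_smul, xv_eq Pk] at h4
    exact h4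
  -- step 11 (beta)
  have s11 : y < w i • (v j)⁻¹ • y := by
    have e : w i * (v j)⁻¹ = (w k)⁻¹ * (x k)⁻¹ * (x i)⁻¹ := by
      have h1 : w i * w j = (w k)⁻¹ := eq_inv_of_mul_eq_one_left Www
      calc w i * (v j)⁻¹ = w i * w j * x j := by rw [← wx_eq Pj]; group
        _ = _ := by rw [h1, ex]; group
    rw [smul_smul, e, mul_smul, mul_smul]
    exact s10.trans ((m.lt_iff _).mpr ((m.lt_iff _).mpr s1'))
  -- step 12 (gamma)
  have s12 : w i • (w j ^ b * v j ^ q)⁻¹ • w j • y < y := by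
    have e : w i * ((w j ^ b * v j ^ q)⁻¹ * (w j * ((w k ^ (b + 1) * (x k)⁻¹ ^ a) *
        (x j * (x i ^ (a + 1) * v i ^ (q + 1)))))) = 1 := by
      have h1 : w j * ((w k ^ (b + 1) * (x k)⁻¹ ^ a) * (x j * (x i ^ (a + 1) * v i ^ (q + 1))))
          = w j * ((w k ^ (b + 1) * (x k)⁻¹ ^ a) * x j) * (x i ^ (a + 1) * v i ^ (q + 1)) := by
        simp only [mul_assoc]
      rw [h1, CCj, ← fC Pj a b q, RAi]
      group
    have h1 : y < (w k ^ (b + 1) * (x k)⁻¹ ^ a) • x j • (x i ^ (a + 1) * v i ^ (q + 1)) • y :=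
      s9.trans ((m.lt_iff _).mpr (lt_of_lt_of_le s3 ((m.le_iff _).mpr hA)))
    have h2 := (m.lt_iff (w i)).mpr ((m.lt_iff (w j ^ b * v j ^ q)⁻¹).mpr
      ((m.lt_iff (w j)).mpr h1))
    have h3 : w i • (w j ^ b * v j ^ q)⁻¹ • w j • (w k ^ (b + 1) * (x k)⁻¹ ^ a) • x j •
        (x i ^ (a + 1) * v i ^ (q + 1)) • y = y := by
      simp only [smul_smul]
      have e' := e
      simp only [mul_assoc] at e' ⊢
      rw [e', one_smul]
    rwa [h3] at h2
  -- step 13 (delta)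
  obtain ⟨b', rfl⟩ := Nat.exists_eq_add_of_le' hb
  obtain ⟨q', rfl⟩ := Nat.exists_eq_add_of_le' (show 1 ≤ q by omega)
  have s13 : y < w j ^ b' • v j ^ q' • y := by
    have h1 : (w j ^ (b' + 1) * v j ^ (q' + 1))⁻¹ • w j • y < (v j)⁻¹ • y :=
      (m.lt_iff (w i)).mp (s12.trans s11)
    have h2 := (m.lt_iff (w j ^ b' * v j ^ (q' + 1))).mpr h1
    have e1 : w j ^ b' * v j ^ (q' + 1) * (w j ^ (b' + 1) * v j ^ (q' + 1))⁻¹ * w j = 1 := by
      rw [pow_succ' (w j)]; group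
    have e2 : w j ^ b' * v j ^ (q' + 1) * (v j)⁻¹ = w j ^ b' * v j ^ q' := by
      rw [pow_succ (v j)]; group
    rw [smul_smul, smul_smul, e1, one_smul, smul_smul, e2, mul_smul] at h2
    exact h2
  -- step 14 (epsilon)
  have s14 : ∀ n ≤ q', v j ^ (n + 1) • y < (x j)⁻¹ ^ (n + 1) • y := by
    have hup : ∀ n ≤ q', v j ^ n • y < w j • v j ^ n • y := by
      intro n hn'
      by_contra h
      rw [not_lt] at h
      have h1 := m.pow_down h b'
      have h2 : w j ^ b' • v j ^ q' • y ≤ w j ^ b' • v j ^ n • y :=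
        (m.le_iff _).mpr (m.pow_mono_down s6v.le hn')
      exact absurd (lt_of_lt_of_le s13 (h2.trans (h1.trans (m.pow_down s6v.le n))))
        (lt_irrefl _)
    have hstep : ∀ n ≤ q', v j ^ (n + 1) • y < (x j)⁻¹ • v j ^ n • y := by
      intro n hn'
      rw [pow_succ', mul_smul, v_smul Pj]
      exact (m.lt_iff _).mpr (m.xinv_down_lt (hup n hn'))
    intro n
    induction n with
    | zero =>
      intro h0
      have := hstep 0 h0
      simpa using this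
    | succ n ih =>
      intro h0
      refine (hstep (n + 1) h0).trans ?_
      rw [pow_succ' (x j)⁻¹, mul_smul]
      exact (m.lt_iff _).mpr (ih (by omega))
  have s14' : v j ^ (q' + 1) • y < (x j)⁻¹ ^ (a + 1) • y :=
    lt_of_lt_of_le (s14 q' le_rfl) (m.pow_mono_down (m.xinv_down_lt s3).le hq)
  -- step 15 (zeta)
  have s15 : (x j)⁻¹ ^ (a + 1) • y < v j ^ (q' + 1) • y := by
    have e1 : x k * ((x k ^ (a + 1) * v k ^ (q' + 1 + 1))⁻¹ *
        (x i ^ (a + 1) * v i ^ (q' + 1 + 1))) = x k * w k := by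
      rw [RAk]; group
    have e2 : x k * (x k ^ (a + 1) * v k ^ (q' + 1 + 1))⁻¹ =
        (x i)⁻¹ * (v j * (x j ^ (a + 1) * v j ^ (q' + 1 + 1))⁻¹) := by
      have h2 : x k * x j = (x i)⁻¹ := eq_inv_of_mul_eq_one_left Xxx
      rw [RAj, mul_inv_rev, ← xv_eq Pj, ← mul_assoc, ← mul_assoc, h2]
      group
    have e3 : v j * (x j ^ (a + 1) * v j ^ (q' + 1 + 1))⁻¹ =
        (v j ^ (q' + 1))⁻¹ * (x j)⁻¹ ^ (a + 1) := by
      rw [mul_inv_rev, pow_succ' (v j) (q' + 1), inv_pow]; group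
    have h1 : x k • w k • y < y :=
      (m.lt_inv_iff (x k)).mp ((m.lt_inv_iff (w k)).mp s10)
    have h2 : (x k * (x k ^ (a + 1) * v k ^ (q' + 1 + 1))⁻¹) • y ≤
        (x k * (x k ^ (a + 1) * v k ^ (q' + 1 + 1))⁻¹) •
          (x i ^ (a + 1) * v i ^ (q' + 1 + 1)) • y := (m.le_iff _).mpr hA
    have h3 : (x k * (x k ^ (a + 1) * v k ^ (q' + 1 + 1))⁻¹) •
          (x i ^ (a + 1) * v i ^ (q' + 1 + 1)) • y = x k • w k • y := by
      rw [smul_smul, smul_smul, mul_assoc, e1]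
    rw [h3] at h2
    have h4 := lt_of_le_of_lt h2 h1
    rw [e2, e3, mul_smul, mul_smul] at h4
    have h5 := ((m.inv_lt_iff (x i)).mp h4).trans s1
    exact (m.inv_lt_iff _).mp h5
  exact absurd (s15.trans s14') (lt_irrefl _)

end act

end Pool.Agent.Helper52.L3
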