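import Pool.Agent.Helper52.L3.Elim

set_option autoImplicit false

/-!
# A wider range of parameters

Only `q > a` is used for the exclusion of types, and then either `q ≥ b` or `q ≥ 2 * a - 1`.
-/

namespace Pool.Agent.Helper52.L3

section local_
variable {H : Type*} [Group H] {Ω : Type*} [LinearOrder Ω] [MulAction H Ω]
  {a b q : ℕ} {x v w : ZMod 3 → H}

/-- Two consecutive `w` cannot both be not up at a point (the condition on `D` is used only at
the third level). -/
theorem R3.wwx' (R : R3 a b q x v w) (m : Mono H Ω) (hb : 1 ≤ b)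
    (hq : b ≤ q) {i j k : ZMod 3} (hj : i + 1 = j) (hk : j + 1 = k) {u : Ω}
    (hC : ∀ l, u < (w l ^ (b + 1) * (x l)⁻¹ ^ a) • u)
    (hDk : w k • u < (w k ^ b * v k ^ q) • w k • u) (h1 : w i • u ≤ u)
    (h2 : w j • u ≤ u) : False := by
  have hi : k + 1 = i := by rw [← hk, ← hj]; exact z3 i
  have Pi := R.prod i
  have Pj := R.prod j
  have Pk := R.prod k
  have X := R.xx i
  have RAi := R.relA i
  have A'i := R.A' i
  have A'k := R.A' k
  rw [hj] at RAi A'i X
  rw [hk] at X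
  rw [hi] at A'k
  have x1 : x i • u < u := m.w_down_x (hC i) h1
  have x2 : x j • u < u := m.w_down_x (hC j) h2
  have hxk : ∀ z : Ω, x i • z < z → x j • z < z → z < x k • z := by
    intro z hz1 hz2
    have e : (x k)⁻¹ = x j * x i := by
      have h1 : x k * (x j * x i) = 1 := by rw [← mul_assoc]; exact X
      exact (eq_inv_of_mul_eq_one_right h1).symm
    rw [← m.inv_lt_iff, e, mul_smul]
    exact ((m.lt_iff _).mpr hz1).trans hz2
  have xk : u < x k • u := hxk u x1 x2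
  have wk : u < w k • u := by
    by_contra hcon
    exact absurd (m.w_down_x (hC k) (not_lt.mp hcon)) (not_lt.mpr xk.le)
  obtain ⟨b', rfl⟩ := Nat.exists_eq_add_of_le' hb
  obtain ⟨q', rfl⟩ := Nat.exists_eq_add_of_le' (show 1 ≤ q by omega)
  have hD : u < w k ^ b' • v k ^ q' • (x k)⁻¹ • u := by
    have h3 := hDk
    have e : (w k ^ (b' + 1) * v k ^ (q' + 1)) • w k • u =
        w k • w k ^ b' • v k ^ q' • (x k)⁻¹ • u := by
      rw [smul_smul, smul_smul, smul_smul, smul_smul]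
      congr 1
      rw [← vw_eq Pk, pow_succ (v k), pow_succ' (w k)]
      group
    rw [e, m.lt_iff] at h3
    exact h3
  have xk' : (x k)⁻¹ • u ≤ u := m.xinv_down xk.le
  have hD2 : u < w k ^ b' • v k ^ q' • u :=
    lt_of_lt_of_le hD ((m.le_iff _).mpr ((m.le_iff _).mpr xk'))
  have vk : v k • u ≤ u := by
    rw [v_smul Pk]
    exact ((m.le_iff _).mpr (m.xinv_down wk.le)).trans xk'
  have hup : ∀ n ≤ q', v k ^ n • u < w k • v k ^ n • u := fun n hn =>
    m.w_up hD2.le wk (m.pow_mono_down vk hn) (m.pow_down vk n)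
  have hpow : ∀ n l : ℕ, n + l ≤ q' →
      v k ^ (l + 1) • v k ^ n • u < (x k)⁻¹ ^ (l + 1) • v k ^ n • u := by
    intro n l hnl
    refine m.vk_lt' Pk (n := l) ?_ l le_rfl
    intro l' hl'
    have := hup (l' + n) (by omega)
    rwa [pow_add, mul_smul] at this
  -- the point `T`
  have T1 : x i ^ a • u ≤ (x j ^ (a + 1) * v j ^ (q' + 1 + 1)) • u := by
    rw [A'i]
    exact m.A_low' Pi a _ h1 x1
  have T2 : x j ^ a • u ≤ (x j ^ (a + 1) * v j ^ (q' + 1 + 1)) • u := m.A_low Pj a _ h2 x2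
  have T3 : (x j ^ (a + 1) * v j ^ (q' + 1 + 1)) • u ≤
      x k ^ (a + 1) • v k ^ (q' + 1) • u := by
    have h3 : (x j ^ (a + 1) * v j ^ (q' + 1 + 1)) • u ≤
        (x i ^ (a + 1) * v i ^ (q' + 1 + 1)) • u := by
      rw [RAi, mul_smul]
      exact (m.le_iff _).mpr h1
    refine h3.trans ?_
    rw [A'k, mul_smul, mul_smul]
    exact (m.le_iff _).mpr ((m.le_iff _).mpr xk')
  -- `x k` is up at `v k ^ n u`
  have hxup : ∀ n ≤ q', v k ^ n • u < x k • v k ^ n • u := by
    intro n hn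
    rcases le_or_gt ((x j ^ (a + 1) * v j ^ (q' + 1 + 1)) • u) (v k ^ n • u) with h3 | h3
    · have h4 := m.pow_down vk n
      exact hxk _ (m.down_on x1 (T1.trans h3) h4) (m.down_on x2 (T2.trans h3) h4)
    · have h4 : v k ^ n • u < x k ^ (a + 1) • v k ^ (q' + 1) • u := lt_of_lt_of_le h3 T3
      by_contra hcon
      rw [not_lt] at hcon
      rcases le_or_gt (n + a) q' with h5 | h5
      · have h6 : v k ^ (q' + 1) • u ≤ v k ^ (a + 1) • v k ^ n • u := by
          rw [← mul_smul, ← pow_add]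
          exact m.pow_mono_down vk (by omega)
        have h7 := lt_of_le_of_lt h6 (hpow n a h5)
        have h8 := (m.lt_iff (x k ^ (a + 1))).mpr h7
        rw [inv_pow, smul_inv_smul] at h8
        exact absurd (h4.trans h8) (lt_irrefl _)
      · obtain ⟨l, hl⟩ := Nat.exists_eq_add_of_le hn
        obtain ⟨r, hr⟩ := Nat.exists_eq_add_of_le (show l + 1 ≤ a + 1 by omega)
        have h6 := hpow n l (by omega)
        rw [← mul_smul, ← pow_add, show l + 1 + n = q' + 1 by omega] at h6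
        have h7 := (m.lt_iff (x k ^ (a + 1))).mpr h6
        have e : x k ^ (a + 1) • (x k)⁻¹ ^ (l + 1) • v k ^ n • u = x k ^ r • v k ^ n • u := by
          rw [hr, add_comm (l + 1) r, pow_add, mul_smul, inv_pow, smul_inv_smul]
        rw [e] at h7
        exact absurd ((h4.trans h7).trans_le (m.pow_down hcon r)) (lt_irrefl _)
  have hcmp : ∀ n ≤ q', v k ^ n • u ≤ (w k)⁻¹ ^ n • u := by
    intro n
    induction n with
    | zero => intro _; simp
    | succ n ih =>
      intro hn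
      have h3 := (hxup (n + 1) hn).le
      rw [pow_succ' (v k), mul_smul] at h3 ⊢
      rw [smul_smul (x k), xv_eq Pk] at h3
      refine h3.trans ?_
      rw [pow_succ' (w k)⁻¹, mul_smul]
      exact (m.le_iff _).mpr (ih (by omega))
  have h3 := hcmp b' (by omega)
  have h4 := (m.lt_iff (w k ^ b')⁻¹).mpr hD2
  rw [inv_smul_smul, ← inv_pow] at h4
  exact absurd (lt_of_le_of_lt h3 (lt_of_lt_of_le h4 (m.pow_mono_down vk (by omega))))
    (lt_irrefl _)

/-- The two types, from `A` and `C` only. -/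
theorem R3.type' (R : R3 a b q x v w) (m : Mono H Ω) (ha : 1 ≤ a) (hb : 1 ≤ b)
    (haq : a + 1 ≤ q) {y : Ω} (hn : ¬ Fix x v w y) (i : ZMod 3) :
    ((x i ^ (a + 1) * v i ^ (q + 1)) • y < y ∧ y < (w i ^ (b + 1) * (x i)⁻¹ ^ a) • y) ∨
    (y < (x i ^ (a + 1) * v i ^ (q + 1)) • y ∧ (w i ^ (b + 1) * (x i)⁻¹ ^ a) • y < y) := by
  have n1 : y ≤ (x i ^ (a + 1) * v i ^ (q + 1)) • y →
      (w i ^ (b + 1) * (x i)⁻¹ ^ a) • y < y := by
    intro h
    by_contra h2
    exact hn (R.S_excl m ha hb haq h (not_lt.mp h2))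
  have n2 : (x i ^ (a + 1) * v i ^ (q + 1)) • y ≤ y →
      y < (w i ^ (b + 1) * (x i)⁻¹ ^ a) • y := by
    intro h
    by_contra h2
    exact hn (R3.S_excl (Ω := Ωᵒᵈ) R m.dual ha hb haq h (not_lt.mp h2))
  rcases lt_trichotomy ((x i ^ (a + 1) * v i ^ (q + 1)) • y) y with h | h | h
  · exact Or.inl ⟨h, n2 h.le⟩
  · exact absurd (n1 h.ge) (not_lt.mpr (n2 h.le).le)
  · exact Or.inr ⟨h, n1 h.le⟩

/-- The type is kept from level `i` to level `i + 1`. -/
theorem R3.type_next' (R : R3 a b q x v w) (m : Mono H Ω) (ha : 1 ≤ a) (hb : 1 ≤ b)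
    (haq : a + 1 ≤ q) {y : Ω} (hn : ¬ Fix x v w y) {i : ZMod 3}
    (h : (x i ^ (a + 1) * v i ^ (q + 1)) • y < y) :
    (x (i + 1) ^ (a + 1) * v (i + 1) ^ (q + 1)) • y < y := by
  rcases R.type' m ha hb haq hn i with ⟨h1, h2⟩ | ⟨h1, _⟩
  swap
  · exact absurd h (not_lt.mpr h1.le)
  rcases R.type' m ha hb haq hn (i + 1) with ⟨h4, _⟩ | ⟨h4, h6⟩
  · exact h4
  · exfalso
    have h7 : y < w i • y := by
      by_contra hcon
      rw [not_lt] at hcon
      rw [R.relA, mul_smul] at h4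
      exact absurd (lt_of_lt_of_le h4 ((m.le_iff _).mpr hcon)) (not_lt.mpr h1.le)
    have h8 : y < x i • y := by
      by_contra hcon
      rw [not_lt] at hcon
      rw [R.C', mul_smul] at h6
      have h9 : y ≤ (x i)⁻¹ ^ (a + 1) • y := m.pow_up (m.xinv_up hcon) _
      have h10 : y ≤ w i ^ b • (x i)⁻¹ ^ (a + 1) • y :=
        (m.pow_up h7.le b).trans ((m.le_iff _).mpr h9)
      exact absurd h6 (not_lt.mpr h10)
    have h9 := m.LN (R.prod i) ha (show a ≤ q by omega) h2.le h8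
    rw [← R.A' i] at h9
    exact absurd h4 (not_lt.mpr h9.le)

/-- Not all of `s, x⁻¹ s, …, x ^ (-(a-1)) s` are points at which `w` is not up. -/
theorem Mono.pa (m : Mono H Ω) {x v w : H} (h : x * v * w = 1) {s : Ω} {a q : ℕ} (ha : 1 ≤ a)
    (hq : a ≤ q) (hx : x • s ≤ s) (hA : (x ^ (a + 1) * v ^ q * x⁻¹) • x • s < x • s) :
    ∃ n < a, x⁻¹ ^ n • s < w • x⁻¹ ^ n • s := by
  by_contra hcon
  push Not at hcon
  have h1 : ∀ n ≤ a, x⁻¹ ^ n • s ≤ v ^ n • s := by
    intro n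
    induction n with
    | zero => intro _; simp
    | succ n ih =>
      intro hn
      have h2 : x⁻¹ ^ (n + 1) • s ≤ v • x⁻¹ ^ n • s := by
        rw [v_smul h, pow_succ', mul_smul, m.le_iff]
        exact m.xinv_up (hcon n (by omega))
      rw [pow_succ' v, mul_smul]
      exact h2.trans ((m.le_iff _).mpr (ih (by omega)))
  have h3 : s ≤ v • s := by
    have := h1 1 ha
    rw [pow_one, pow_one] at this
    exact (m.xinv_up hx).trans this
  have h4 : x⁻¹ ^ a • s ≤ v ^ q • s := (h1 a le_rfl).trans (m.pow_mono_up h3 hq)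
  have h5 := (m.le_iff (x ^ (a + 1))).mpr h4
  have e1 : x ^ (a + 1) • x⁻¹ ^ a • s = x • s := by
    rw [pow_succ', mul_smul, inv_pow, smul_inv_smul]
  have e2 : (x ^ (a + 1) * v ^ q * x⁻¹) • x • s = x ^ (a + 1) • v ^ q • s := by
    rw [mul_smul, mul_smul, inv_smul_smul]
  rw [e1, ← e2] at h5
  exact absurd hA (not_lt.mpr h5)

end local_

section complete
variable {H : Type*} [Group H] {Ω : Type*} [CompleteLinearOrder Ω] [MulAction H Ω]
  {a b q : ℕ} {x v w : ZMod 3 → H}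

/-- If `w` moves `z` down, `x` moves `z` down and `A z < z` then there is a fixed point of `w` in
`(z, x ^ (-a) z]`. -/
theorem Mono.fix_above (m : Mono H Ω) {x v w : H} (h : x * v * w = 1) {z : Ω} {a q : ℕ}
    (haq : a ≤ q) (hx : x • z < z) (hw : w • z < z)
    (hA : (x ^ (a + 1) * v ^ (q + 1)) • z < z) :
    ∃ β, z < β ∧ β ≤ x⁻¹ ^ a • z ∧ w • β = β ∧ ∀ u, z ≤ u → u < β → w • u < u := by
  have x1' := m.xinv_up_lt hx
  obtain ⟨k, hk, hk2⟩ : ∃ k ≤ a, x⁻¹ ^ k • z ≤ w • x⁻¹ ^ k • z := by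
    by_contra hcon
    push Not at hcon
    have h1 := Mono.vk_lt (Ω := Ωᵒᵈ) (y := z) (n := a) m.dual h hcon
    have h2 : x⁻¹ ^ (a + 1) • z < v ^ (a + 1) • z := h1 a le_rfl
    have h3 : x⁻¹ ^ (0 + 1) • z < v ^ (0 + 1) • z := h1 0 (Nat.zero_le _)
    rw [zero_add, pow_one, pow_one] at h3
    have h4 : z ≤ v • z := (x1'.trans h3).le
    have h5 := lt_of_lt_of_le h2 (m.pow_mono_up h4 (show a + 1 ≤ q + 1 by omega))
    have h6 := (m.lt_iff (x ^ (a + 1))).mpr h5
    rw [inv_pow, smul_inv_smul, ← mul_smul] at h6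
    exact absurd h6 (not_lt.mpr hA.le)
  have hzk : z ≤ x⁻¹ ^ k • z := m.pow_up x1'.le k
  obtain ⟨β, b1, b2, b3, b4⟩ := m.first_fix hw hzk hk2
  exact ⟨β, b1, b2.trans (m.pow_mono_up x1'.le hk), b3, b4⟩

/-- `D` is up where `w` is not up. -/
theorem Mono.D_up (m : Mono H Ω) {x v w : H} (h : x * v * w = 1) {z : Ω} {a q : ℕ} (b : ℕ)
    (hq : 1 ≤ q) (haq : a ≤ q) (hx : x • z < z) (hw : w • z ≤ z)
    (hA : (x ^ (a + 1) * v ^ (q + 1)) • z < z) : z < (w ^ b * v ^ q) • z := by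
  have x1' := m.xinv_up_lt hx
  have hv : z < v • z := by
    rw [v_smul h]
    exact x1'.trans_le ((m.le_iff _).mpr (m.xinv_up hw))
  rcases hw.eq_or_lt with hw' | hw'
  · rw [mul_smul]
    have h1 : z < v ^ q • z := m.pow_up_lt hv hq
    have h2 := (m.lt_iff (w ^ b)).mpr h1
    rwa [pow_fix hw' b] at h2
  · obtain ⟨β, b1, b2, b3, b4⟩ := m.fix_above h haq hx hw' hA
    have key : β ≤ v ^ q • z := by
      by_contra hcon
      rw [not_le] at hcon
      have h1 : ∀ n ≤ q, v ^ n • z < β := fun n hn =>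
        lt_of_le_of_lt (m.pow_mono_up hv.le hn) hcon
      have h2 : ∀ n ≤ q, x⁻¹ ^ n • z ≤ v ^ n • z := by
        intro n
        induction n with
        | zero => intro _; simp
        | succ n ih =>
          intro hn
          have h3 := b4 _ (m.pow_up hv.le n) (h1 n (by omega))
          rw [pow_succ' v, mul_smul, v_smul h, pow_succ' x⁻¹, mul_smul, m.le_iff]
          exact (ih (by omega)).trans (m.xinv_up h3.le)
      exact absurd (b2.trans (h2 a haq)) (not_le.mpr (h1 a haq))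
    rw [mul_smul]
    have h2 := (m.le_iff (w ^ b)).mpr key
    rw [pow_fix b3] at h2
    exact b1.trans_le h2

end complete

end Pool.Agent.Helper52.L3
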