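import Pool.Agent.Helper52.L3.WideMain
import Pool.Agent.Helper52.L3.Group

set_option autoImplicit false

/-!
# Left-ordered groups and the relations, wider range of parameters
-/

namespace Pool.Agent.Helper52.L3

open Pool.Agent.W705.Borr Pool.Agent.TH821.Hex

variable {H : Type*} [Group H] [LinearOrder H] (hinv : ∀ a b c : H, a ≤ b ↔ c * a ≤ c * b)

include hinv in
/-- In a left-ordered group the relations force triviality. -/
theorem rel_trivial_range {a b q : ℕ} (ha : 1 ≤ a) (hb : 1 ≤ b) (hr : Range a b q)
    {x v w : ZMod 3 → H} (R : R3 a b q x v w) (i : ZMod 3) : x i = 1 ∧ v i = 1 := by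
  let : MulAction H (LowerSet H) :=
    { smul := fun g y => act hinv g y
      one_smul := act_one hinv
      mul_smul := act_mul hinv }
  have m : Mono H (LowerSet H) := fun g y z h => (act hinv g).lt_iff_lt.mpr h
  have hf := R.fixed_range m ha hb hr
  exact ⟨eq_one_of_act hinv _ fun y => (hf y i).1, eq_one_of_act hinv _ fun y => (hf y i).2.1⟩

end Pool.Agent.Helper52.L3
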