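import Pool.Agent.Helper52.L3.Wide

set_option autoImplicit false

/-!
# A wider range of parameters: elimination of the types
-/

namespace Pool.Agent.Helper52.L3

section alg
variable {H : Type*} [Group H] {a b q : ℕ} {x v w : ZMod 3 → H}

theorem hatC (R : R3 a b q x v w) {α : ZMod 3 → H} (hα : ∀ j, α (j + 1) = x j * α j)
    {l k : ZMod 3} (hk : -l = k) :
    hat a x α x l ^ (a + 1) * (hat a x α w l)⁻¹ ^ b =
      (α (k + 1))⁻¹ * (w (k + 1) ^ (b + 1) * (x (k + 1))⁻¹ ^ a) * α (k + 1) := by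
  have Rh := R.hat hα
  have h1 := R.hatA hα hk
  have h2 := R.hatD hα hk
  have h3 := fC (Rh.prod l) b a q
  rw [h1, h2] at h3
  rw [← h3, ← fC (R.prod (k + 1)) a b q]
  group

end alg

section main
variable {H : Type*} [Group H] {Ω : Type*} [CompleteLinearOrder Ω] [MulAction H Ω]
  {a b q : ℕ} {x v w : ZMod 3 → H}

/-- The first type on the whole of `Comp x v w y`. -/
structure Ty (a b q : ℕ) (x v w : ZMod 3 → H) (y : Ω) : Prop where
  A : ∀ i, ∀ z ∈ Comp x v w y, (x i ^ (a + 1) * v i ^ (q + 1)) • z < z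
  C : ∀ i, ∀ z ∈ Comp x v w y, z < (w i ^ (b + 1) * (x i)⁻¹ ^ a) • z

theorem R3.ty (R : R3 a b q x v w) (m : Mono H Ω) (ha : 1 ≤ a) (hb : 1 ≤ b)
    (haq : a + 1 ≤ q) {y : Ω} (hn : ¬ Fix x v w y) {i₀ : ZMod 3}
    (h : (x i₀ ^ (a + 1) * v i₀ ^ (q + 1)) • y < y) : Ty a b q x v w y := by
  have hne : ∀ i, ∀ z ∈ Comp x v w y, (x i ^ (a + 1) * v i ^ (q + 1)) • z ≠ z := by
    intro i z hz hcon
    rcases R.type' m ha hb haq (comp_not_fix hn hz) i with ⟨h1, _⟩ | ⟨h1, _⟩
    · exact absurd hcon h1.ne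
    · exact absurd hcon h1.ne'
  have hlev : ∀ i, (x i ^ (a + 1) * v i ^ (q + 1)) • y < y := by
    have h1 := R.type_next' m ha hb haq hn h
    have h2 := R.type_next' m ha hb haq hn h1
    intro j
    rcases z3' i₀ j with rfl | rfl | rfl
    · exact h
    · exact h1
    · exact h2
  have hA : ∀ i, ∀ z ∈ Comp x v w y, (x i ^ (a + 1) * v i ^ (q + 1)) • z < z := by
    intro i z hz
    by_contra hcon
    rw [not_lt] at hcon
    rcases le_total y z with hyz | hyz
    · obtain ⟨r, r1, r2, r3, _⟩ := m.first_fix (hlev i) hyz hcon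
      exact hne i r (comp_conv (self_comp y) hz r1.le r2) r3
    · obtain ⟨r, r1, r2, r3⟩ := m.fix_ud hcon hyz (hlev i)
      exact hne i r (comp_conv hz (self_comp y) r1 r2.le) r3
  refine ⟨hA, ?_⟩
  intro i z hz
  rcases R.type' m ha hb haq (comp_not_fix hn hz) i with ⟨_, h2⟩ | ⟨h1, _⟩
  · exact h2
  · exact absurd h1 (not_lt.mpr (hA i z hz).le)

/-- Elements that fix all the fixed points of the relations. -/
def Good (Ω : Type*) [LinearOrder Ω] {H : Type*} [Group H] [MulAction H Ω]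
    (x v w : ZMod 3 → H) (g : H) : Prop := ∀ r : Ω, Fix x v w r → g • r = r

theorem Good.mul {g h : H} (h1 : Good Ω x v w g) (h2 : Good Ω x v w h) :
    Good Ω x v w (g * h) := fun r hr => by rw [mul_smul, h2 r hr, h1 r hr]

theorem Good.inv {g : H} (h1 : Good Ω x v w g) : Good Ω x v w g⁻¹ :=
  fun r hr => fix_inv (h1 r hr)

theorem Good.pow {g : H} (h1 : Good Ω x v w g) (n : ℕ) : Good Ω x v w (g ^ n) :=
  fun r hr => pow_fix (h1 r hr) n

theorem good_x (i : ZMod 3) : Good Ω x v w (x i) := fun _ hr => (hr i).1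

theorem good_w (i : ZMod 3) : Good Ω x v w (w i) := fun _ hr => (hr i).2.2

/-- No point at which two consecutive `x` are not down. -/
theorem xxw (R : R3 a b q x v w) (m : Mono H Ω) (ha : 1 ≤ a) (haq : a ≤ q) {y : Ω}
    (T : Ty a b q x v w y) (k : ZMod 3) {p : Ω} (hp : p ∈ Comp x v w y) (h1 : p ≤ x k • p)
    (h2 : p ≤ x (k + 1) • p) : False := by
  obtain ⟨α, hα, hα0⟩ : ∃ α : ZMod 3 → H, (∀ j, α (j + 1) = x j * α j) ∧ α 0 = 1 := by
    obtain ⟨β, hβ⟩ := exists_alpha R
    refine ⟨fun j => β j * (β 0)⁻¹, fun j => ?_, by simp⟩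
    show β (j + 1) * (β 0)⁻¹ = x j * (β j * (β 0)⁻¹)
    rw [hβ, mul_assoc]
  have g0 : Good Ω x v w (α 0) := by rw [hα0]; intro r _; exact one_smul _ _
  have g1 : Good Ω x v w (α (0 + 1)) := by rw [hα]; exact (good_x 0).mul g0
  have g2 : Good Ω x v w (α (0 + 1 + 1)) := by rw [hα]; exact (good_x _).mul g1
  have gα : ∀ j, Good Ω x v w (α j) := by
    intro j
    rcases z3' 0 j with h | h | h
    · rw [h]; exact g0
    · rw [h]; exact g1
    · rw [h]; exact g2
  have ghb : ∀ j, Good Ω x v w (hb a x α j) := fun j => ((good_x j).inv.pow a).mul (gα j)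
  have Rh := R.hat hα
  -- the point
  set u : Ω := (α (k + 1))⁻¹ • p with hu
  have hαu : α (k + 1) • u = p := by rw [hu, smul_inv_smul]
  have huK : u ∈ Comp x v w y := comp_smul m (gα (k + 1)).inv hp
  have hC : ∀ l, u < (hat a x α x l ^ (a + 1) * (hat a x α w l)⁻¹ ^ b) • u := by
    intro l
    rw [hatC R hα (l := l) rfl, mul_smul, mul_smul, m.lt_inv_iff]
    exact T.C _ _ (comp_smul m (gα _) huK)
  have hx : ∀ l, hat a x α x l • u ∈ Comp x v w y := by
    intro l
    have g : Good Ω x v w (hat a x α x l) := by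
      unfold hat
      exact ((ghb (-l)).inv.mul (good_x (-l)).inv).mul (ghb (-l))
    exact comp_smul m g huK
  have hD : ∀ l, hat a x α x l • u <
      (hat a x α x l ^ a * hat a x α v l ^ q) • hat a x α x l • u := by
    intro l
    rw [R.hatD hα (i := l) rfl, mul_smul, mul_smul, m.lt_inv_iff, m.lt_inv_iff]
    exact T.A _ _ (comp_smul m (gα _) (hx l))
  -- the two levels
  have e1 : -(-(k + 1)) = k + 1 := neg_neg _
  have e2 : -(-(k + 1) + 1) = k := by ring
  have hdown : ∀ l j : ZMod 3, -l = j → α j • u ≤ x j • α j • u →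
      hat a x α x l • u ≤ u := by
    intro l j hl hle
    unfold hat hb
    rw [hl, mul_smul, mul_smul, m.inv_le_iff, mul_smul]
    have h3 : (x j)⁻¹ • α j • u ≤ α j • u := (m.inv_le_iff _).mpr hle
    have h4 : (x j)⁻¹ • (x j)⁻¹ ^ a • α j • u = (x j)⁻¹ ^ a • (x j)⁻¹ • α j • u := by
      rw [← mul_smul (x j)⁻¹ ((x j)⁻¹ ^ a), ← mul_smul ((x j)⁻¹ ^ a) (x j)⁻¹, ← pow_succ',
        ← pow_succ]
    rw [h4]
    exact (m.le_iff _).mpr h3
  have d1 : hat a x α x (-(k + 1)) • u ≤ u := by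
    refine hdown _ (k + 1) e1 ?_
    rw [hαu]; exact h2
  have d2 : hat a x α x (-(k + 1) + 1) • u ≤ u := by
    refine hdown _ k e2 ?_
    have h3 : α k • u = (x k)⁻¹ • p := by
      rw [← hαu, hα, mul_smul, inv_smul_smul]
    rw [h3, smul_inv_smul]
    exact (m.inv_le_iff _).mpr h1
  exact Rh.wwx' m ha haq (i := -(k + 1)) rfl rfl hC (hD _) d1 d2

theorem R3.x_tri (R : R3 a b q x v w) (m : Mono H Ω) (ha : 1 ≤ a) (haq : a ≤ q) {y : Ω}
    (T : Ty a b q x v w y) {z : Ω} (hz : z ∈ Comp x v w y) :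
    ∃ k, z < x k • z ∧ x (k + 1) • z < z ∧ x (k + 1 + 1) • z < z := by
  obtain ⟨k, hk⟩ : ∃ k, z ≤ x k • z := by
    by_contra hcon
    push Not at hcon
    have X := R.xx 0
    have h3 : x (0 + 1 + 1) • x (0 + 1) • x 0 • z = z := by
      rw [smul_smul, smul_smul, X, one_smul]
    have h4 : x (0 + 1 + 1) • x (0 + 1) • x 0 • z < z :=
      ((m.lt_iff _).mpr (((m.lt_iff _).mpr (hcon 0)).trans (hcon (0 + 1)))).trans
        (hcon (0 + 1 + 1))
    rw [h3] at h4
    exact absurd h4 (lt_irrefl _)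
  have h1 : x (k + 1) • z < z := by
    by_contra hcon
    exact xxw R m ha haq T k hz hk (not_lt.mp hcon)
  have h2 : x (k + 1 + 1) • z < z := by
    by_contra hcon
    refine xxw R m ha haq T (k + 1 + 1) hz (not_lt.mp hcon) ?_
    rw [z3]; exact hk
  refine ⟨k, ?_, h1, h2⟩
  rcases hk.eq_or_lt with h | h
  · exfalso
    have X := R.xx k
    have h3 : x (k + 1 + 1) • x (k + 1) • x k • z = z := by
      rw [smul_smul, smul_smul, X, one_smul]
    rw [← h] at h3
    have h4 : x (k + 1 + 1) • x (k + 1) • z < z := ((m.lt_iff _).mpr h1).trans h2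
    rw [h3] at h4
    exact absurd h4 (lt_irrefl _)
  · exact h

theorem R3.x_ne (R : R3 a b q x v w) (m : Mono H Ω) (ha : 1 ≤ a) (haq : a ≤ q) {y : Ω}
    (T : Ty a b q x v w y) {z : Ω} (hz : z ∈ Comp x v w y) (i : ZMod 3) : x i • z ≠ z := by
  obtain ⟨k, h1, h2, h3⟩ := R.x_tri m ha haq T hz
  rcases z3' k i with rfl | rfl | rfl
  · exact h1.ne'
  · exact h2.ne
  · exact h3.ne

theorem R3.x_down (R : R3 a b q x v w) (m : Mono H Ω) (ha : 1 ≤ a) (haq : a ≤ q) {y : Ω}
    (T : Ty a b q x v w y) {s z : Ω} (hs : s ∈ Comp x v w y) (hz : z ∈ Comp x v w y)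
    {i : ZMod 3} (h : x i • s < s) : x i • z < z := by
  by_contra hcon
  rw [not_lt] at hcon
  rcases le_total s z with hyz | hyz
  · obtain ⟨r, r1, r2, r3, _⟩ := m.first_fix h hyz hcon
    exact R.x_ne m ha haq T (comp_conv hs hz r1.le r2) i r3
  · obtain ⟨r, r1, r2, r3⟩ := m.fix_ud hcon hyz h
    exact R.x_ne m ha haq T (comp_conv hz hs r1 r2.le) i r3

theorem R3.x_const (R : R3 a b q x v w) (m : Mono H Ω) (ha : 1 ≤ a) (haq : a ≤ q) {y : Ω}
    (T : Ty a b q x v w y) : ∃ k, ∀ z ∈ Comp x v w y,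
      z < x k • z ∧ x (k + 1) • z < z ∧ x (k + 1 + 1) • z < z := by
  obtain ⟨k, h1, h2, h3⟩ := R.x_tri m ha haq T (self_comp y)
  refine ⟨k, fun z hz => ⟨?_, R.x_down m ha haq T (self_comp y) hz h2,
    R.x_down m ha haq T (self_comp y) hz h3⟩⟩
  rcases lt_trichotomy z (x k • z) with h | h | h
  · exact h
  · exact absurd h.symm (R.x_ne m ha haq T hz k)
  · exact absurd (R.x_down m ha haq T hz (self_comp y) h) (not_lt.mpr h1.le)

/-- There are no points of the first type. -/
theorem R3.no_ty (R : R3 a b q x v w) (m : Mono H Ω) (ha : 1 ≤ a) (hb : 1 ≤ b)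
    (haq : a + 1 ≤ q) (hor : b ≤ q ∨ 2 * a ≤ q + 1) {y : Ω} (T : Ty a b q x v w y) : False := by
  obtain ⟨k, hk⟩ := R.x_const m ha (show a ≤ q by omega) T
  obtain ⟨i, hi⟩ : ∃ i, k + 1 = i := ⟨_, rfl⟩
  obtain ⟨j, hj⟩ : ∃ j, i + 1 = j := ⟨_, rfl⟩
  have hjk : j + 1 = k := by rw [← hj, ← hi]; exact z3 k
  rw [hi, hj] at hk
  have hw : ∀ l, ∀ z ∈ Comp x v w y, w l • z ≤ z → x l • z < z := fun l z hz h =>
    m.w_down_x (T.C l z hz) h
  have hwk : ∀ z ∈ Comp x v w y, z < w k • z := by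
    intro z hz
    by_contra hcon
    exact absurd (hw k z hz (not_lt.mp hcon)) (not_lt.mpr (hk z hz).1.le)
  have W := R.ww i
  rw [hj, hjk] at W
  have hsome : ∀ z ∈ Comp x v w y, w i • z ≤ z ∨ w j • z ≤ z := by
    intro z hz
    by_contra hcon
    push Not at hcon
    have h3 : w i • w j • w k • z = z := by
      rw [smul_smul, smul_smul, W, one_smul]
    have h4 : z < w i • w j • w k • z :=
      hcon.1.trans ((m.lt_iff _).mpr (hcon.2.trans ((m.lt_iff _).mpr (hwk z hz))))
    rw [h3] at h4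
    exact absurd h4 (lt_irrefl _)
  have gx : ∀ l, ∀ z ∈ Comp x v w y, x l • z ∈ Comp x v w y := fun l z hz =>
    comp_smul m (good_x l) hz
  have gw : ∀ l, ∀ z ∈ Comp x v w y, w l • z ∈ Comp x v w y := fun l z hz =>
    comp_smul m (good_w l) hz
  have gxi : ∀ l, ∀ z ∈ Comp x v w y, (x l)⁻¹ • z ∈ Comp x v w y := fun l z hz =>
    comp_smul m (good_x l).inv hz
  rcases hor with hbq | hqa
  · -- the case `b ≤ q`
    have hD : ∀ z ∈ Comp x v w y, z < (w k ^ b * v k ^ q) • z := by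
      intro z hz
      rcases hsome z hz with h | h
      · have h1 := m.D_up (R.prod i) b (by omega) (show a ≤ q by omega) (hw i z hz h) h
          (T.A i z hz)
        have h2 := R.relD k
        rw [hi] at h2
        have h3 : w k ^ b * v k ^ q = w i ^ b * v i ^ q * x k := by rw [h2]; group
        rw [h3, mul_smul]
        exact h1.trans ((m.lt_iff _).mpr (hk z hz).1)
      · have h1 := m.D_up (R.prod j) b (by omega) (show a ≤ q by omega) (hw j z hz h) h
          (T.A j z hz)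
        have h2 := R.relD j
        rw [hjk] at h2
        rw [h2, mul_smul]
        exact h1.trans ((m.lt_iff _).mpr (m.xinv_up_lt (hw j z hz h)))
    have hfix : ∀ l, ∀ z ∈ Comp x v w y, w l • z ≤ z → ∃ β ∈ Comp x v w y, w l • β = β := by
      intro l z hz h
      rcases h.eq_or_lt with h' | h'
      · exact ⟨z, hz, h'⟩
      · obtain ⟨β, b1, b2, b3, _⟩ := m.fix_above (R.prod l) (show a ≤ q by omega)
          (hw l z hz h) h' (T.A l z hz)
        refine ⟨β, comp_conv hz ?_ b1.le b2, b3⟩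
        exact comp_smul m ((good_x l).inv.pow a) hz
    obtain ⟨β, hβ, b1, b2⟩ : ∃ β ∈ Comp x v w y, w i • β ≤ β ∧ w j • β ≤ β := by
      rcases hsome y (self_comp y) with h | h
      · obtain ⟨β, hβ, b3⟩ := hfix i y (self_comp y) h
        refine ⟨β, hβ, b3.le, ?_⟩
        by_contra hcon
        rw [not_le] at hcon
        have h3 : w i • w j • w k • β = w i • β := by
          rw [smul_smul, smul_smul, W, one_smul, b3]
        have h5 : w j • w k • β = β := by
          have := congrArg (fun t => (w i)⁻¹ • t) h3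
          simpa only [inv_smul_smul] using this
        have h4 : β < w j • w k • β := hcon.trans ((m.lt_iff _).mpr (hwk β hβ))
        rw [h5] at h4
        exact absurd h4 (lt_irrefl _)
      · obtain ⟨β, hβ, b3⟩ := hfix j y (self_comp y) h
        refine ⟨β, hβ, ?_, b3.le⟩
        by_contra hcon
        rw [not_le] at hcon
        have W' := R.ww k
        rw [hi, hj] at W'
        have h3 : w k • w i • w j • β = β := by
          rw [smul_smul, smul_smul, W', one_smul]
        rw [b3] at h3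
        have h4 : β < w k • w i • β := (hwk β hβ).trans ((m.lt_iff _).mpr hcon)
        rw [h3] at h4
        exact absurd h4 (lt_irrefl _)
    exact R.wwx' m hb hbq hj hjk (fun l => T.C l β hβ) (hD _ (gw k β hβ)) b1 b2
  · -- the case `q ≥ 2 * a - 1`
    have X := R.xx i
    rw [hj, hjk] at X
    have ex : (x k)⁻¹ = x j * x i := by
      have h1 : x k * (x j * x i) = 1 := by rw [← mul_assoc]; exact X
      exact (eq_inv_of_mul_eq_one_right h1).symm
    obtain ⟨d, rfl⟩ := Nat.exists_eq_add_of_le (show a ≤ q by omega)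
    have hv : ∀ n, ∀ z ∈ Comp x v w y, v k ^ (n + 1) • z < (x k)⁻¹ ^ (n + 1) • z := by
      intro n z hz
      refine m.vk_lt (R.prod k) (n := n) ?_ n le_rfl
      intro l _
      exact hwk _ (comp_smul m ((good_x k).inv.pow l) hz)
    have hcan : ∀ z : Ω, x k ^ (a + 1) • (x k)⁻¹ ^ (a + d + 1) • z = (x k)⁻¹ ^ d • z := by
      intro z
      rw [smul_smul]
      congr 1
      rw [show a + d + 1 = (a + 1) + d by omega, pow_add (x k)⁻¹ (a + 1) d, ← mul_assoc,
        inv_pow (x k) (a + 1), mul_inv_cancel, one_mul]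
    -- `A k p < (x k) ^ (-d) p` and `A i p < (x k) ^ (-d) p`
    have hAk : ∀ p ∈ Comp x v w y,
        (x k ^ (a + 1) * v k ^ (a + d + 1)) • p < (x j * x i) ^ d • p := by
      intro p hp
      rw [← ex, mul_smul, ← hcan p, m.lt_iff]
      exact hv (a + d) p hp
    have hAi : ∀ p ∈ Comp x v w y,
        (x i ^ (a + 1) * v i ^ (a + d + 1)) • p < (x j * x i) ^ d • p := by
      intro p hp
      have h0 := R.A' k
      rw [hi] at h0
      rw [h0, ← ex, mul_smul, mul_smul, ← hcan p, m.lt_iff, pow_succ (x k)⁻¹, mul_smul]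
      obtain ⟨e, he⟩ := Nat.exists_eq_add_of_le' (show 1 ≤ a + d by omega)
      rw [he]
      exact hv e _ (gxi k p hp)
    have c1 : ∀ p ∈ Comp x v w y, w j • p ≤ p → x j ^ a • p < (x j * x i) ^ d • p := by
      intro p hp h
      have h1 := m.A_low' (R.prod j) a (a + d) h (hw j p hp h)
      have h0 := R.A' j
      rw [hjk] at h0
      rw [← h0] at h1
      exact lt_of_le_of_lt h1 (hAk p hp)
    have c2 : ∀ p ∈ Comp x v w y, w i • p ≤ p → x i ^ a • p < (x j * x i) ^ d • p := by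
      intro p hp h
      have h1 := m.A_low (R.prod i) a (a + d) h (hw i p hp h)
      exact lt_of_le_of_lt h1 (hAi p hp)
    -- the end of a run
    have c3 : ∀ l, (∀ z ∈ Comp x v w y, x l • z < z) → ∀ p ∈ Comp x v w y, w l • p ≤ p →
        ∃ p' ∈ Comp x v w y, w l • p' ≤ p' ∧ x l • p' < w l • x l • p' := by
      intro l hl p hp h
      by_contra hcon
      push Not at hcon
      have hrun : ∀ n : ℕ, x l ^ n • p ∈ Comp x v w y ∧ w l • x l ^ n • p ≤ x l ^ n • p := by
        intro n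
        induction n with
        | zero => simpa using ⟨hp, h⟩
        | succ n ih =>
          rw [pow_succ', mul_smul]
          exact ⟨gx l _ ih.1, hcon _ ih.1 ih.2⟩
      obtain ⟨a', ha'⟩ := Nat.exists_eq_add_of_le' ha
      have hs := (hrun a').1
      have hA := T.A (l + 1) _ (gx l _ hs)
      rw [R.A' l] at hA
      obtain ⟨n, hn, h1⟩ := m.pa (R.prod l) ha (show a ≤ a + d by omega) (hl _ hs).le hA
      have e : (x l)⁻¹ ^ n • x l ^ a' • p = x l ^ (a' - n) • p := by
        rw [smul_smul]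
        congr 1
        obtain ⟨c, hc⟩ := Nat.exists_eq_add_of_le (show n ≤ a' by omega)
        rw [hc, Nat.add_sub_cancel_left, pow_add, ← mul_assoc, inv_pow, inv_mul_cancel,
          one_mul]
      rw [e] at h1
      exact absurd (hrun (a' - n)).2 (not_le.mpr h1)
    have hxj : ∀ z ∈ Comp x v w y, x j • z < z := fun z hz => (hk z hz).2.2
    have hxi : ∀ z ∈ Comp x v w y, x i • z < z := fun z hz => (hk z hz).2.1
    -- `(x j * x i) ^ n z` is at most `x j ^ n z` and `x i ^ n z`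
    have gxx : ∀ z ∈ Comp x v w y, (x j * x i) • z ∈ Comp x v w y := fun z hz => by
      rw [mul_smul]; exact gx j _ (gx i z hz)
    have cj : ∀ n : ℕ, ∀ z ∈ Comp x v w y, (x j * x i) ^ n • z ≤ x j ^ n • z := by
      intro n
      induction n with
      | zero => intro z _; simp
      | succ n ih =>
        intro z hz
        rw [pow_succ (x j * x i), mul_smul ((x j * x i) ^ n), pow_succ (x j),
          mul_smul (x j ^ n)]
        refine (ih _ (gxx z hz)).trans ?_
        rw [m.le_iff, mul_smul, m.le_iff]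
        exact (hxi z hz).le
    have ci : ∀ n : ℕ, ∀ z ∈ Comp x v w y, (x j * x i) ^ n • z ≤ x i ^ n • z := by
      intro n
      induction n with
      | zero => intro z _; simp
      | succ n ih =>
        intro z hz
        rw [pow_succ (x j * x i), mul_smul ((x j * x i) ^ n), pow_succ (x i),
          mul_smul (x i ^ n)]
        refine (ih _ (gxx z hz)).trans ?_
        rw [m.le_iff, mul_smul]
        exact (hxj _ (gx i z hz)).le
    have hne : ∃ p ∈ Comp x v w y, w i • p ≤ p := by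
      by_contra hcon
      push Not at hcon
      have hall : ∀ p ∈ Comp x v w y, w j • p ≤ p := fun p hp =>
        (hsome p hp).resolve_left (not_le.mpr (hcon p hp))
      obtain ⟨p', hp', _, h2⟩ := c3 j hxj y (self_comp y) (hall y (self_comp y))
      exact absurd (hall _ (gx j p' hp')) (not_le.mpr h2)
    obtain ⟨p₀, hp₀, h₀⟩ := hne
    obtain ⟨p, hp, h1, h2⟩ := c3 i hxi p₀ hp₀ h₀
    have ht : x i • p ∈ Comp x v w y := gx i p hp
    have h3 : w j • x i • p ≤ x i • p := (hsome _ ht).resolve_left (not_le.mpr h2)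
    have k1 := c2 p hp h1
    have k2 := c1 _ ht h3
    obtain ⟨a', ha'⟩ := Nat.exists_eq_add_of_le' ha
    obtain ⟨d', hd'⟩ := Nat.exists_eq_add_of_le' (show 1 ≤ d by omega)
    generalize ht' : x i • p = t at ht h3 k2
    rcases le_total (x i • t) (x j • t) with h4 | h4
    · have h5 : (x j * x i) ^ d • t ≤ x j ^ (d + 1) • t := by
        rw [hd', pow_succ, mul_smul, mul_smul]
        refine ((m.le_iff _).mpr ((m.le_iff _).mpr h4)).trans ?_
        refine (cj d' _ (gx j _ (gx j t ht))).trans (le_of_eq ?_)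
        rw [smul_smul, smul_smul, ← pow_succ, ← pow_succ]
      have h6 : x j ^ (d + 1) • t ≤ x j ^ a • t :=
        m.pow_mono_down (hxj t ht).le (by omega)
      exact absurd (k2.trans_le (h5.trans h6)) (lt_irrefl _)
    · rw [ha', hd', pow_succ (x i), pow_succ (x j * x i), mul_smul, mul_smul, mul_smul,
        ht'] at k1
      have h5 : (x j * x i) ^ d' • x j • t ≤ x i ^ d • t := by
        refine ((m.le_iff _).mpr h4).trans ?_
        refine (ci d' _ (gx i t ht)).trans (le_of_eq ?_)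
        rw [hd', smul_smul, ← pow_succ]
      have h6 : x i ^ d • t ≤ x i ^ a' • t := m.pow_mono_down (hxi t ht).le (by omega)
      exact absurd (k1.trans_le (h5.trans h6)) (lt_irrefl _)

/-- Everything is fixed. -/
theorem R3.fixed' (R : R3 a b q x v w) (m : Mono H Ω) (ha : 1 ≤ a) (hb : 1 ≤ b)
    (haq : a + 1 ≤ q) (hor : b ≤ q ∨ 2 * a ≤ q + 1) (y : Ω) : Fix x v w y := by
  by_contra hn
  rcases R.type' m ha hb haq hn 0 with ⟨h1, _⟩ | ⟨h1, _⟩
  · exact R.no_ty m ha hb haq hor (R.ty m ha hb haq hn h1)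
  · have hn' : ¬ Fix (Ω := Ωᵒᵈ) x v w y := hn
    have T := R3.ty (Ω := Ωᵒᵈ) R m.dual ha hb haq hn' (i₀ := 0) h1
    exact R3.no_ty (Ω := Ωᵒᵈ) R m.dual ha hb haq hor T

/-- The parameters. -/
def Range (a b q : ℕ) : Prop :=
  (a + 1 ≤ q ∧ (b ≤ q ∨ 2 * a ≤ q + 1)) ∨ (b + 1 ≤ q ∧ (a ≤ q ∨ 2 * b ≤ q + 1))

theorem R3.fixed_range (R : R3 a b q x v w) (m : Mono H Ω) (ha : 1 ≤ a) (hb : 1 ≤ b)
    (hr : Range a b q) (y : Ω) : Fix x v w y := by
  rcases hr with ⟨h1, h2⟩ | ⟨h1, h2⟩
  · exact R.fixed' m ha hb h1 h2 y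
  · obtain ⟨α, hα⟩ := exists_alpha R
    have Rh := R.hat hα
    have hf := fun z => Rh.fixed' m hb ha h1 h2 z
    intro k
    have h3 := unhat (hf ((α k)⁻¹ • y)) k
    rwa [smul_inv_smul] at h3

end main

end Pool.Agent.Helper52.L3
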